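import Mathlib

/-!
# MP_848d44_nt: finite families of multiplicative functions with a large sieve; bilinear sums
-/

namespace MP848

open Finset

/-- A finite family of completely multiplicative functions `f i`, bounded by `1`, which satisfies
a large sieve inequality with the constants `B`, `D`, and whose summatory functions are bounded by
`P`. -/
structure Fam {ι : Type*} [Fintype ι] (f : ι → ℕ → ℂ) (B D P : ℝ) : Prop where
  mul : ∀ i m n, f i (m * n) = f i m * f i n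
  norm_le : ∀ i n, ‖f i n‖ ≤ 1
  ls : ∀ (c : ℕ → ℂ) (a T : ℕ), ∑ i, ‖∑ v ∈ Ioc a (a + T), c v * f i v‖ ^ 2 ≤
    B * (D + T) * ∑ v ∈ Ioc a (a + T), ‖c v‖ ^ 2
  pv : ∀ i z, ‖∑ r ∈ Ioc 0 z, f i r‖ ≤ P
  oneB : 1 ≤ B
  nonnegD : 0 ≤ D
  oneP : 1 ≤ P

/-- binary separation of the condition `k < z` -/
theorem sep_identity (L : ℕ) : ∀ (z k : ℕ), z < 2 ^ L →
    (if k < z then (1 : ℂ) else 0) =
      ∑ l ∈ range L, if (z / 2 ^ l) % 2 = 1 ∧ k / 2 ^ l + 1 = z / 2 ^ l then (1 : ℂ) else 0 := by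
  induction L with
  | zero =>
    intro z k hz
    have : z = 0 := by simpa using hz
    subst this
    simp
  | succ L ih =>
    intro z k hz
    rw [Finset.sum_range_succ']
    have h1 : ∀ l, (z / 2 ^ (l + 1)) = (z / 2) / 2 ^ l := by
      intro l
      rw [pow_succ', Nat.div_div_eq_div_mul]
    have h2 : ∀ l, (k / 2 ^ (l + 1)) = (k / 2) / 2 ^ l := by
      intro l
      rw [pow_succ', Nat.div_div_eq_div_mul]
    have hz2 : z / 2 < 2 ^ L := by
      rw [Nat.div_lt_iff_lt_mul (by norm_num)]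
      rw [pow_succ] at hz
      exact hz
    simp only [h1, h2]
    rw [← ih (z / 2) (k / 2) hz2]
    simp only [pow_zero, Nat.div_one]
    by_cases hk : k / 2 < z / 2
    · have hkz : k < z := by omega
      have hn : ¬ (z % 2 = 1 ∧ k + 1 = z) := by omega
      rw [if_pos hkz, if_pos hk, if_neg hn, add_zero]
    · by_cases hkz : k < z
      · have hn : (z % 2 = 1 ∧ k + 1 = z) := by omega
        rw [if_pos hkz, if_neg hk, if_pos hn, zero_add]
      · have hn : ¬ (z % 2 = 1 ∧ k + 1 = z) := by omega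
        rw [if_neg hkz, if_neg hk, if_neg hn, add_zero]

section bil

variable {ι : Type*} [Fintype ι] {f : ι → ℕ → ℂ} {B D P : ℝ}

/-- large sieve for the restriction to the fibres of a function -/
theorem Fam.ls_fibre (F : Fam f B D P) (c : ℕ → ℂ) (a T : ℕ) (g : ℕ → ℕ) (J : Finset ℕ)
    :
    ∑ i, ∑ j ∈ J, ‖∑ v ∈ (Ioc a (a + T)).filter (fun v => g v = j), c v * f i v‖ ^ 2 ≤
      B * (D + T) * ∑ v ∈ Ioc a (a + T), ‖c v‖ ^ 2 := by
  rw [Finset.sum_comm]
  have h1 : ∀ j ∈ J, ∑ i, ‖∑ v ∈ (Ioc a (a + T)).filter (fun v => g v = j), c v * f i v‖ ^ 2 ≤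
      B * (D + T) * ∑ v ∈ (Ioc a (a + T)).filter (fun v => g v = j), ‖c v‖ ^ 2 := by
    intro j _
    have h := F.ls (fun v => if g v = j then c v else 0) a T
    have e1 : ∀ i, ∑ v ∈ Ioc a (a + T), (if g v = j then c v else 0) * f i v =
        ∑ v ∈ (Ioc a (a + T)).filter (fun v => g v = j), c v * f i v := by
      intro i
      rw [Finset.sum_filter]
      refine Finset.sum_congr rfl fun v _ => ?_
      split_ifs <;> simp
    have e2 : ∑ v ∈ Ioc a (a + T), ‖(if g v = j then c v else 0)‖ ^ 2 =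
        ∑ v ∈ (Ioc a (a + T)).filter (fun v => g v = j), ‖c v‖ ^ 2 := by
      rw [Finset.sum_filter]
      refine Finset.sum_congr rfl fun v _ => ?_
      split_ifs <;> simp
    simp only [e1, e2] at h
    exact h
  refine (Finset.sum_le_sum h1).trans ?_
  rw [← Finset.mul_sum]
  have hB : 0 ≤ B * (D + T) :=
    mul_nonneg (zero_le_one.trans F.oneB) (add_nonneg F.nonnegD (Nat.cast_nonneg T))
  refine mul_le_mul_of_nonneg_left ?_ hB
  have h2 := Finset.sum_fiberwise_le_sum_of_sum_fiber_nonneg (s := Ioc a (a + T)) (t := J)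
    (g := g) (f := fun v => ‖c v‖ ^ 2) (fun y _ => Finset.sum_nonneg fun v _ => by positivity)
  exact h2

/-- Bilinear sums with the condition `m k ≤ y`. -/
theorem Fam.bilinear (F : Fam f B D P) (a b : ℕ → ℂ) (M ΔM K ΔK y L : ℕ)
    (hL : K + ΔK + 1 < 2 ^ L) :
    ∑ i, ‖∑ m ∈ Ioc M (M + ΔM), ∑ k ∈ (Ioc K (K + ΔK)).filter (fun k => m * k ≤ y),
      a m * b k * f i (m * k)‖ ≤
      L * (B * (Real.sqrt ((D + ΔM) * ∑ m ∈ Ioc M (M + ΔM), ‖a m‖ ^ 2) *
        Real.sqrt ((D + ΔK) * ∑ k ∈ Ioc K (K + ΔK), ‖b k‖ ^ 2))) := by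
  classical
  set z : ℕ → ℕ := fun m => min (y / m) (K + ΔK) + 1 with hz
  have hzle : ∀ m, z m ≤ K + ΔK + 1 := by
    intro m
    simp only [hz]
    have := min_le_right (y / m) (K + ΔK)
    omega
  have hzL : ∀ m, z m < 2 ^ L := fun m => lt_of_le_of_lt (hzle m) hL
  set J : Finset ℕ := range (K + ΔK + 2) with hJ
  -- the pieces
  set a' : ℕ → ℕ → ℂ := fun l m => if (z m / 2 ^ l) % 2 = 1 then a m else 0 with ha'
  set A : ℕ → ℕ → ι → ℂ := fun l j i =>
    ∑ m ∈ (Ioc M (M + ΔM)).filter (fun m => z m / 2 ^ l = j), a' l m * f i m with hA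
  set Bb : ℕ → ℕ → ι → ℂ := fun l j i =>
    ∑ k ∈ (Ioc K (K + ΔK)).filter (fun k => k / 2 ^ l + 1 = j), b k * f i k with hBb
  have hdecomp : ∀ i, ∑ m ∈ Ioc M (M + ΔM), ∑ k ∈ (Ioc K (K + ΔK)).filter (fun k => m * k ≤ y),
      a m * b k * f i (m * k) = ∑ l ∈ range L, ∑ j ∈ J, A l j i * Bb l j i := by
    intro i
    have e1 : ∀ m ∈ Ioc M (M + ΔM), ∑ k ∈ (Ioc K (K + ΔK)).filter (fun k => m * k ≤ y),
        a m * b k * f i (m * k) = ∑ l ∈ range L, ∑ k ∈ Ioc K (K + ΔK),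
          if (z m / 2 ^ l) % 2 = 1 ∧ k / 2 ^ l + 1 = z m / 2 ^ l then
            (a m * f i m) * (b k * f i k) else 0 := by
      intro m hm
      rw [Finset.sum_filter, Finset.sum_comm]
      refine Finset.sum_congr rfl fun k hk => ?_
      have hm0 : 0 < m := lt_of_le_of_lt (Nat.zero_le _) (Finset.mem_Ioc.1 hm).1
      have hkK : k ≤ K + ΔK := (Finset.mem_Ioc.1 hk).2
      have hiff : m * k ≤ y ↔ k < z m := by
        simp only [hz]
        rw [Nat.lt_succ_iff, le_min_iff, Nat.le_div_iff_mul_le hm0, mul_comm k m]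
        exact ⟨fun h => ⟨h, hkK⟩, fun h => h.1⟩
      have hs := sep_identity L (z m) k (hzL m)
      have e3 : (if m * k ≤ y then a m * b k * f i (m * k) else 0) =
          (if k < z m then (1 : ℂ) else 0) * ((a m * f i m) * (b k * f i k)) := by
        by_cases h : k < z m
        · rw [if_pos h, if_pos (hiff.2 h), F.mul]; ring
        · rw [if_neg h, if_neg (fun h' => h (hiff.1 h'))]; ring
      rw [e3, hs, Finset.sum_mul]
      refine Finset.sum_congr rfl fun l _ => ?_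
      split_ifs <;> ring
    rw [Finset.sum_congr rfl e1, Finset.sum_comm]
    refine Finset.sum_congr rfl fun l _ => ?_
    -- fixed l
    have e4 : ∀ j ∈ J, A l j i * Bb l j i = ∑ m ∈ Ioc M (M + ΔM), ∑ k ∈ Ioc K (K + ΔK),
        if z m / 2 ^ l = j ∧ k / 2 ^ l + 1 = j then (a' l m * f i m) * (b k * f i k) else 0 := by
      intro j _
      simp only [hA, hBb]
      rw [Finset.sum_filter, Finset.sum_filter, Finset.sum_mul_sum]
      refine Finset.sum_congr rfl fun m _ => Finset.sum_congr rfl fun k _ => ?_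
      by_cases h1 : z m / 2 ^ l = j <;> by_cases h2 : k / 2 ^ l + 1 = j <;> simp [h1, h2]
    rw [Finset.sum_congr rfl e4]
    symm
    rw [Finset.sum_comm]
    refine Finset.sum_congr rfl fun m _ => ?_
    rw [Finset.sum_comm]
    refine Finset.sum_congr rfl fun k _ => ?_
    have hmem : z m / 2 ^ l ∈ J := by
      rw [hJ, Finset.mem_range]
      have := Nat.div_le_self (z m) (2 ^ l)
      have := hzle m
      omega
    rw [Finset.sum_eq_single (z m / 2 ^ l)]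
    · simp only [ha', true_and]
      by_cases h1 : z m / 2 ^ l % 2 = 1 <;> by_cases h2 : k / 2 ^ l + 1 = z m / 2 ^ l <;>
        simp [h1, h2]
    · intro j _ hj
      rw [if_neg]
      rintro ⟨h1, -⟩
      exact hj h1.symm
    · intro h
      exact absurd hmem h
  have hB0 : 0 ≤ B := zero_le_one.trans F.oneB
  have hstep : ∀ l ∈ range L, ∑ i, ∑ j ∈ J, ‖A l j i‖ * ‖Bb l j i‖ ≤
      B * (Real.sqrt ((D + ΔM) * ∑ m ∈ Ioc M (M + ΔM), ‖a m‖ ^ 2) *
        Real.sqrt ((D + ΔK) * ∑ k ∈ Ioc K (K + ΔK), ‖b k‖ ^ 2)) := by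
    intro l _
    have h1 := Real.sum_mul_le_sqrt_mul_sqrt (univ ×ˢ J : Finset (ι × ℕ))
      (fun p => ‖A l p.2 p.1‖) (fun p => ‖Bb l p.2 p.1‖)
    rw [Finset.sum_product, Finset.sum_product, Finset.sum_product] at h1
    refine h1.trans ?_
    have hA2 : ∑ i, ∑ j ∈ J, ‖A l j i‖ ^ 2 ≤ B * ((D + ΔM) * ∑ m ∈ Ioc M (M + ΔM), ‖a m‖ ^ 2) := by
      refine (F.ls_fibre (a' l) M ΔM (fun m => z m / 2 ^ l) J).trans ?_
      rw [mul_assoc]
      refine mul_le_mul_of_nonneg_left (mul_le_mul_of_nonneg_left ?_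
        (add_nonneg F.nonnegD (Nat.cast_nonneg _))) hB0
      refine Finset.sum_le_sum fun m _ => ?_
      simp only [ha']
      split_ifs
      · exact le_rfl
      · rw [norm_zero, zero_pow two_ne_zero]
        positivity
    have hB2 : ∑ i, ∑ j ∈ J, ‖Bb l j i‖ ^ 2 ≤
        B * ((D + ΔK) * ∑ k ∈ Ioc K (K + ΔK), ‖b k‖ ^ 2) := by
      refine (F.ls_fibre b K ΔK (fun k => k / 2 ^ l + 1) J).trans ?_
      rw [mul_assoc]
    calc Real.sqrt (∑ i, ∑ j ∈ J, ‖A l j i‖ ^ 2) * Real.sqrt (∑ i, ∑ j ∈ J, ‖Bb l j i‖ ^ 2)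
        ≤ Real.sqrt (B * ((D + ΔM) * ∑ m ∈ Ioc M (M + ΔM), ‖a m‖ ^ 2)) *
          Real.sqrt (B * ((D + ΔK) * ∑ k ∈ Ioc K (K + ΔK), ‖b k‖ ^ 2)) := by
          exact mul_le_mul (Real.sqrt_le_sqrt hA2) (Real.sqrt_le_sqrt hB2)
            (Real.sqrt_nonneg _) (Real.sqrt_nonneg _)
      _ = B * (Real.sqrt ((D + ΔM) * ∑ m ∈ Ioc M (M + ΔM), ‖a m‖ ^ 2) *
        Real.sqrt ((D + ΔK) * ∑ k ∈ Ioc K (K + ΔK), ‖b k‖ ^ 2)) := by
          rw [Real.sqrt_mul hB0, Real.sqrt_mul hB0]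
          have := Real.mul_self_sqrt hB0
          linear_combination (Real.sqrt ((D + ΔM) * ∑ m ∈ Ioc M (M + ΔM), ‖a m‖ ^ 2) *
            Real.sqrt ((D + ΔK) * ∑ k ∈ Ioc K (K + ΔK), ‖b k‖ ^ 2)) * this
  calc ∑ i, ‖∑ m ∈ Ioc M (M + ΔM), ∑ k ∈ (Ioc K (K + ΔK)).filter (fun k => m * k ≤ y),
      a m * b k * f i (m * k)‖ = ∑ i, ‖∑ l ∈ range L, ∑ j ∈ J, A l j i * Bb l j i‖ := by
        simp_rw [hdecomp]
    _ ≤ ∑ i, ∑ l ∈ range L, ∑ j ∈ J, ‖A l j i‖ * ‖Bb l j i‖ := by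
        refine Finset.sum_le_sum fun i _ => (norm_sum_le _ _).trans
          (Finset.sum_le_sum fun l _ => (norm_sum_le _ _).trans
            (Finset.sum_le_sum fun j _ => (norm_mul_le _ _)))
    _ = ∑ l ∈ range L, ∑ i, ∑ j ∈ J, ‖A l j i‖ * ‖Bb l j i‖ := Finset.sum_comm
    _ ≤ ∑ l ∈ range L, B * (Real.sqrt ((D + ΔM) * ∑ m ∈ Ioc M (M + ΔM), ‖a m‖ ^ 2) *
        Real.sqrt ((D + ΔK) * ∑ k ∈ Ioc K (K + ΔK), ‖b k‖ ^ 2)) := Finset.sum_le_sum hstep
    _ = _ := by rw [Finset.sum_const, Finset.card_range, nsmul_eq_mul]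

end bil

end MP848
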