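import Pool.Agent.Lib.MP_848d44_nt.A.Vaughan

/-!
# MP_848d44_nt: the mean value theorem over a family
-/

namespace MP848

open Finset ArithmeticFunction

theorem split_sum (h : ℕ → ℂ) (U W y : ℕ) (hUW : U ≤ W) (h1 : ∀ m, y < m → h m = 0)
    (h2 : ∀ m, W < m → h m = 0) :
    ∑ m ∈ Ioc 0 y, h m = ∑ m ∈ Ioc 0 U, h m + ∑ m ∈ Ioc U W, h m := by
  rw [Finset.sum_Ioc_consecutive h (Nat.zero_le U) hUW]
  have e1 : ∑ m ∈ Ioc 0 y, h m = ∑ m ∈ Ioc 0 (max y W), h m := by
    apply Finset.sum_subset (Finset.Ioc_subset_Ioc_right (le_max_left _ _))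
    intro m hm hm'
    apply h1
    by_contra h3
    exact hm' (Finset.mem_Ioc.2 ⟨(Finset.mem_Ioc.1 hm).1, by omega⟩)
  have e2 : ∑ m ∈ Ioc 0 W, h m = ∑ m ∈ Ioc 0 (max y W), h m := by
    apply Finset.sum_subset (Finset.Ioc_subset_Ioc_right (le_max_right _ _))
    intro m hm hm'
    apply h2
    by_contra h3
    exact hm' (Finset.mem_Ioc.2 ⟨(Finset.mem_Ioc.1 hm).1, by omega⟩)
  rw [e1, e2]

section

variable {ι : Type*} [Fintype ι] {f : ι → ℕ → ℂ} {B D P : ℝ}

/-- **Mean value theorem** for the von Mangoldt function over a family. -/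
theorem Fam.l1 (F : Fam f B D P) (N U y : ℕ) (hU : 1 ≤ U) (hUN : U ^ 3 ≤ N) (hy : y ≤ N) :
    ∑ i, ‖∑ n ∈ Ioc 0 y, ((vonMangoldt n : ℝ) : ℂ) * f i n‖ ≤
      Fintype.card ι * (4 * (U * (P * Real.log N))) +
      2 * (lev N * (lev N * (B * ((1 + Real.log N) ^ 3 *
        (Real.sqrt N * D + 2 * (N * Real.sqrt (D / U)) + N))))) := by
  classical
  set W := N / U with hW
  have hWU : W * U ≤ N := Nat.div_mul_le_self N U
  have hN1 : 1 ≤ N := le_trans (by calc 1 = 1 ^ 3 := by norm_num
    _ ≤ U ^ 3 := Nat.pow_le_pow_left hU 3) hUN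
  have hUU : U * U ≤ W := by
    rw [hW, Nat.le_div_iff_mul_le hU]
    calc U * U * U = U ^ 3 := by ring
      _ ≤ N := hUN
  have hUW : U ≤ W := (Nat.le_mul_of_pos_left U hU).trans hUU
  have hUN' : U ≤ N := hUW.trans (Nat.div_le_self N U)
  have hP := F.oneP
  have hD := F.nonnegD
  have hB0 : 0 ≤ B := zero_le_one.trans F.oneB
  have hlog : 0 ≤ Real.log N := Real.log_natCast_nonneg N
  set E : ℝ := Real.sqrt N * D + 2 * (N * Real.sqrt (D / U)) + N with hE
  have hE0 : 0 ≤ E := by positivity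
  set Fu := tru U LamR with hFu
  set Gu := tru U MoeR with hGu
  -- the terms
  set T1 : ι → ℂ := fun i => ∑ n ∈ Ioc 0 y, (Fu n : ℂ) * f i n with hT1
  set T2 : ι → ℂ := fun i => ∑ m ∈ Ioc 0 y, (Gu m : ℂ) * f i m *
    ∑ k ∈ Ioc 0 (y / m), (log k : ℂ) * f i k with hT2
  set T3a : ι → ℂ := fun i => ∑ m ∈ Ioc 0 U, ((Fu * Gu) m : ℂ) * f i m *
    ∑ k ∈ Ioc 0 (y / m), (ZetR k : ℂ) * f i k with hT3a
  set T3b : ι → ℂ := fun i => ∑ m ∈ Ioc U W, ((Fu * Gu) m : ℂ) * f i m *
    ∑ k ∈ Ioc 0 (y / m), (ZetR k : ℂ) * f i k with hT3b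
  set T4 : ι → ℂ := fun i => ∑ m ∈ Ioc U W, ((LamR - Fu) m : ℂ) * f i m *
    ∑ k ∈ Ioc 0 (y / m), ((1 - ZetR * Gu) k : ℂ) * f i k with hT4
  have hdiv0 : ∀ m, y < m → y / m = 0 := fun m hm => Nat.div_eq_of_lt hm
  have hdec : ∀ i, ∑ n ∈ Ioc 0 y, ((vonMangoldt n : ℝ) : ℂ) * f i n =
      T1 i + T2 i - (T3a i + T3b i) + T4 i := by
    intro i
    rw [vaughan_sum (f i) (F.mul i) Fu Gu y]
    congr 1
    · congr 1
      apply split_sum _ U W y hUW
      · intro m hm
        rw [hdiv0 m hm]
        simp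
      · intro m hm
        rw [FG_zero U m (lt_of_le_of_lt hUU hm)]
        simp
    · rw [split_sum _ U W y hUW]
      · have : ∑ m ∈ Ioc 0 U, ((LamR - Fu) m : ℂ) * f i m *
            ∑ k ∈ Ioc 0 (y / m), ((1 - ZetR * Gu) k : ℂ) * f i k = 0 := by
          refine Finset.sum_eq_zero fun m hm => ?_
          rw [hFu, af_sub_apply, tru_apply, if_pos (Finset.mem_Ioc.1 hm).2, sub_self]
          simp
        rw [this, zero_add]
      · intro m hm
        rw [hdiv0 m hm]
        simp
      · intro m hm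
        have h3 : ∑ k ∈ Ioc 0 (y / m), ((1 - ZetR * Gu) k : ℂ) * f i k = 0 := by
          refine Finset.sum_eq_zero fun k hk => ?_
          have hk' := Finset.mem_Ioc.1 hk
          have hkU : k ≤ U := by
            have hm0 : 0 < m := lt_of_le_of_lt (Nat.zero_le _) hm
            have h4 : k * m ≤ y := (Nat.le_div_iff_mul_le hm0).1 hk'.2
            have h5 : N < (N / U + 1) * U := by
              rw [add_mul, one_mul]
              exact Nat.lt_div_mul_add hU
            have h6 : (N / U + 1) * U ≤ m * U := Nat.mul_le_mul_right U hm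
            by_contra h7
            have h8 : U * m ≤ k * m := Nat.mul_le_mul_right m (by omega)
            rw [mul_comm U m] at h8
            omega
          rw [hGu, beta_zero U k hk'.1 hkU]
          simp
        rw [h3, mul_zero]
  -- the bounds
  have hb1 : ∀ i, ‖T1 i‖ ≤ U * (P * Real.log N) := by
    intro i
    have e1 : T1 i = ∑ n ∈ Ioc 0 U, (if n ≤ y then (Fu n : ℂ) * f i n else 0) := by
      have e2 : T1 i = ∑ n ∈ Ioc 0 (max y U), (if n ≤ y then (Fu n : ℂ) * f i n else 0) := by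
        simp only [hT1]
        rw [← Finset.sum_filter]
        refine Finset.sum_congr ?_ fun _ _ => rfl
        ext n
        simp only [Finset.mem_filter, Finset.mem_Ioc]
        omega
      rw [e2]
      symm
      apply Finset.sum_subset (Finset.Ioc_subset_Ioc_right (le_max_right _ _))
      intro n hn hn'
      have : ¬ n ≤ U := fun h => hn' (Finset.mem_Ioc.2 ⟨(Finset.mem_Ioc.1 hn).1, h⟩)
      rw [hFu, tru_apply, if_neg this]
      simp
    rw [e1]
    refine (norm_sum_le _ _).trans ?_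
    calc ∑ n ∈ Ioc 0 U, ‖(if n ≤ y then (Fu n : ℂ) * f i n else 0)‖
        ≤ ∑ n ∈ Ioc 0 U, P * Real.log N := by
          refine Finset.sum_le_sum fun n hn => ?_
          have h1 : ‖(Fu n : ℂ)‖ ≤ Real.log N := by
            rw [Complex.norm_real, Real.norm_eq_abs]
            exact tru_lam_abs U n N ((Finset.mem_Ioc.1 hn).2.trans hUN')
          have h2 := F.norm_le i n
          split_ifs
          · rw [norm_mul]
            calc ‖(Fu n : ℂ)‖ * ‖f i n‖ ≤ Real.log N * 1 :=
                  mul_le_mul h1 h2 (norm_nonneg _) hlog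
              _ ≤ P * Real.log N := by nlinarith
          · rw [norm_zero]; positivity
      _ = U * (P * Real.log N) := by
          rw [Finset.sum_const, Nat.card_Ioc, nsmul_eq_mul, Nat.sub_zero]
  have hb2 : ∀ i, ‖T2 i‖ ≤ U * (2 * (P * Real.log N)) := by
    intro i
    have e1 : T2 i = ∑ m ∈ Ioc 0 U, (Gu m : ℂ) * f i m *
        ∑ k ∈ Ioc 0 (y / m), (log k : ℂ) * f i k := by
      simp only [hT2]
      rw [split_sum _ U U y le_rfl]
      · rw [Finset.Ioc_self, Finset.sum_empty, add_zero]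
      · intro m hm
        rw [hdiv0 m hm]
        simp
      · intro m hm
        rw [hGu, tru_apply, if_neg (by omega)]
        simp
    rw [e1]
    refine (norm_sum_le _ _).trans ?_
    calc ∑ m ∈ Ioc 0 U, ‖(Gu m : ℂ) * f i m * ∑ k ∈ Ioc 0 (y / m), (log k : ℂ) * f i k‖
        ≤ ∑ m ∈ Ioc 0 U, 2 * (P * Real.log N) := by
          refine Finset.sum_le_sum fun m hm => ?_
          have h1 : ‖(Gu m : ℂ)‖ ≤ 1 := by
            rw [Complex.norm_real, Real.norm_eq_abs]
            exact tru_moe_abs U m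
          have h2 := F.norm_le i m
          have h3 := F.log_sum i (y / m)
          have h4 : Real.log ((y / m : ℕ) : ℝ) ≤ Real.log N := by
            rcases Nat.eq_zero_or_pos (y / m) with h | h
            · rw [h]; simpa using hlog
            · exact Real.log_le_log (by exact_mod_cast h)
                (by exact_mod_cast (Nat.div_le_self y m).trans hy)
          have h5 : ‖∑ k ∈ Ioc 0 (y / m), (log k : ℂ) * f i k‖ ≤ 2 * (P * Real.log N) := by
            simp only [ArithmeticFunction.log_apply]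
            refine h3.trans ?_
            gcongr
          rw [norm_mul, norm_mul]
          calc ‖(Gu m : ℂ)‖ * ‖f i m‖ * ‖∑ k ∈ Ioc 0 (y / m), (log k : ℂ) * f i k‖
              ≤ 1 * 1 * (2 * (P * Real.log N)) := by gcongr
            _ = _ := by ring
      _ = U * (2 * (P * Real.log N)) := by
          rw [Finset.sum_const, Nat.card_Ioc, nsmul_eq_mul, Nat.sub_zero]
  have hb3a : ∀ i, ‖T3a i‖ ≤ U * (P * Real.log N) := by
    intro i
    simp only [hT3a]
    refine (norm_sum_le _ _).trans ?_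
    calc ∑ m ∈ Ioc 0 U, ‖((Fu * Gu) m : ℂ) * f i m * ∑ k ∈ Ioc 0 (y / m), (ZetR k : ℂ) * f i k‖
        ≤ ∑ m ∈ Ioc 0 U, P * Real.log N := by
          refine Finset.sum_le_sum fun m hm => ?_
          have h1 : ‖((Fu * Gu) m : ℂ)‖ ≤ Real.log N := by
            rw [Complex.norm_real, Real.norm_eq_abs]
            exact FG_abs U m N ((Finset.mem_Ioc.1 hm).2.trans hUN')
          have h2 := F.norm_le i m
          have h3 : ∑ k ∈ Ioc 0 (y / m), (ZetR k : ℂ) * f i k = ∑ k ∈ Ioc 0 (y / m), f i k := by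
            refine Finset.sum_congr rfl fun k hk => ?_
            rw [ArithmeticFunction.natCoe_apply,
              ArithmeticFunction.zeta_apply_ne (Finset.mem_Ioc.1 hk).1.ne']
            simp
          rw [h3, norm_mul, norm_mul]
          calc ‖((Fu * Gu) m : ℂ)‖ * ‖f i m‖ * ‖∑ k ∈ Ioc 0 (y / m), f i k‖
              ≤ Real.log N * 1 * P := by
                have := F.pv i (y / m)
                gcongr
            _ = _ := by ring
      _ = U * (P * Real.log N) := by
          rw [Finset.sum_const, Nat.card_Ioc, nsmul_eq_mul, Nat.sub_zero]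
  have hlog3 : Real.log N * 1 ≤ (1 + Real.log N) ^ 3 := by
    nlinarith [pow_nonneg hlog 3, pow_nonneg hlog 2]
  have hb3b : ∑ i, ‖T3b i‖ ≤ lev N * (lev N * (B * ((1 + Real.log N) ^ 3 * E))) := by
    have h1 := F.typeII (fun m => ((Fu * Gu) m : ℂ)) (fun k => (ZetR k : ℂ)) N U W y hU hWU hy
      (Real.log N) 1 hlog zero_le_one
      (fun m hm => by
        rw [Complex.norm_real, Real.norm_eq_abs]
        exact FG_abs U m N hm)
      (fun K _ => by
        calc ∑ k ∈ Ioc 0 K, ‖(ZetR k : ℂ)‖ ^ 2 ≤ ∑ k ∈ Ioc 0 K, (1 : ℝ) := by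
              refine Finset.sum_le_sum fun k hk => ?_
              rw [ArithmeticFunction.natCoe_apply,
                ArithmeticFunction.zeta_apply_ne (Finset.mem_Ioc.1 hk).1.ne']
              simp
          _ = 1 ^ 2 * (K : ℝ) := by simp)
    refine h1.trans ?_
    gcongr
  have hb4 : ∑ i, ‖T4 i‖ ≤ lev N * (lev N * (B * ((1 + Real.log N) ^ 3 * E))) := by
    have h1 := F.typeII (fun m => ((LamR - Fu) m : ℂ)) (fun k => ((1 - ZetR * Gu) k : ℂ))
      N U W y hU hWU hy
      (Real.log N) ((1 + Real.log N) ^ 2) hlog (by positivity)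
      (fun m hm => by
        rw [Complex.norm_real, Real.norm_eq_abs]
        exact lam_sub_tru_abs U m N hm)
      (fun K hK => by
        have h2 : ∑ k ∈ Ioc 0 K, ‖((1 - ZetR * Gu) k : ℂ)‖ ^ 2 ≤
            ∑ k ∈ Ioc 0 K, ((k.divisors.card : ℕ) : ℝ) ^ 2 := by
          refine Finset.sum_le_sum fun k hk => ?_
          have hk' := Finset.mem_Ioc.1 hk
          rw [Complex.norm_real, Real.norm_eq_abs]
          rcases Nat.lt_or_ge 1 k with h | h
          · exact pow_le_pow_left₀ (abs_nonneg _) (beta_le U k h) 2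
          · have hk1 : k = 1 := by omega
            rw [hGu, beta_zero U k hk'.1 (by omega)]
            simp
        refine h2.trans ((tau_sq_sum_log K).trans ?_)
        rcases Nat.eq_zero_or_pos K with h | h
        · subst h; simp
        · have h3 : Real.log K ≤ Real.log N :=
            Real.log_le_log (by exact_mod_cast h) (by exact_mod_cast hK)
          have h4 : 0 ≤ Real.log K := Real.log_natCast_nonneg K
          calc (K : ℝ) * (1 + Real.log K) ^ 3 ≤ K * (1 + Real.log N) ^ 3 := by gcongr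
            _ ≤ K * (1 + Real.log N) ^ 4 := by
                gcongr
                · linarith
                · norm_num
            _ = ((1 + Real.log N) ^ 2) ^ 2 * K := by ring)
    refine h1.trans ?_
    gcongr
    calc Real.log N * (1 + Real.log N) ^ 2 ≤ (1 + Real.log N) * (1 + Real.log N) ^ 2 := by
          gcongr
          linarith
      _ = (1 + Real.log N) ^ 3 := by ring
  -- assembly
  calc ∑ i, ‖∑ n ∈ Ioc 0 y, ((vonMangoldt n : ℝ) : ℂ) * f i n‖
      ≤ ∑ i, (4 * (U * (P * Real.log N)) + ‖T3b i‖ + ‖T4 i‖) := by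
        refine Finset.sum_le_sum fun i _ => ?_
        rw [hdec i]
        have h1 := norm_add_le (T1 i + T2 i - (T3a i + T3b i)) (T4 i)
        have h2 := norm_sub_le (T1 i + T2 i) (T3a i + T3b i)
        have h3 := norm_add_le (T1 i) (T2 i)
        have h4 := norm_add_le (T3a i) (T3b i)
        have h5 := hb1 i
        have h6 := hb2 i
        have h7 := hb3a i
        linarith
    _ = Fintype.card ι * (4 * (U * (P * Real.log N))) + ∑ i, ‖T3b i‖ + ∑ i, ‖T4 i‖ := by
        rw [Finset.sum_add_distrib, Finset.sum_add_distrib, Finset.sum_const, Finset.card_univ,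
          nsmul_eq_mul]
    _ ≤ _ := by linarith

end

end MP848
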