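import Pool.Agent.Lib.MP_848d44_nt.A.LSieve
import Pool.Agent.Lib.MP_848d44_nt.Defs

/-!
# MP_848d44_nt: the multiplicative large sieve for prime moduli, on intervals
-/

namespace MP848

open Finset Complex Pool.Agent.M848

theorem stdAddChar_eq_ee {s : ℕ} [NeZero s] (b : ZMod s) (v : ℕ) :
    (ZMod.stdAddChar (b * (v : ZMod s)) : ℂ) = ee (v * ((b.val : ℝ) / s)) := by
  have h1 : b * (v : ZMod s) = (((b.val * v : ℕ) : ℤ) : ZMod s) := by
    push_cast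
    rw [ZMod.natCast_zmod_val]
  rw [h1, ZMod.stdAddChar_coe, ee]
  congr 1
  push_cast
  ring

/-- from additive to multiplicative characters -/
theorem gauss_gen {s : ℕ} [Fact s.Prime] (V : Finset ℕ) (c : ℕ → ℂ) :
    ∑ χ ∈ (univ : Finset (DirichletCharacter ℂ s)).erase 1, ‖∑ v ∈ V, c v * χ (v : ZMod s)‖ ^ 2 ≤
      ∑ b ∈ (univ : Finset (ZMod s)).erase 0,
        ‖∑ v ∈ V, c v * (ZMod.stdAddChar (b * (v : ZMod s)) : ℂ)‖ ^ 2 := by
  classical
  have hs : (0 : ℝ) < s := by exact_mod_cast (Fact.out : s.Prime).pos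
  set ψ : AddChar (ZMod s) ℂ := ZMod.stdAddChar with hψ
  set S : ZMod s → ℂ := fun b => ∑ v ∈ V, c v * ψ (b * (v : ZMod s)) with hS
  -- expansion
  have hexp : ∀ χ : DirichletCharacter ℂ s, χ ≠ 1 → ∀ x : ZMod s,
      χ x * gaussSum χ⁻¹ ψ = ∑ b : ZMod s, χ⁻¹ b * ψ (b * x) := by
    intro χ hχ x
    have hχi : χ⁻¹ ≠ 1 := by simpa using hχ
    by_cases hx : x = 0
    · subst hx
      have : ∑ b : ZMod s, χ⁻¹ b * ψ (b * 0) = 0 := by
        simp only [mul_zero, AddChar.map_zero_eq_one, mul_one]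
        exact MulChar.sum_eq_zero_of_ne_one hχi
      rw [this, MulChar.map_nonunit χ (by simp), zero_mul]
    · have hu : IsUnit x := IsUnit.mk0 x hx
      have := gaussSum_mulShift_eq χ⁻¹ ψ hu.unit
      rw [inv_inv] at this
      rw [IsUnit.unit_spec] at this
      rw [← this, gaussSum]
      refine Finset.sum_congr rfl fun b _ => ?_
      rw [AddChar.mulShift_apply, mul_comm x b]
  have h1 : ∀ χ ∈ (univ : Finset (DirichletCharacter ℂ s)).erase 1,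
      (s : ℝ) * ‖∑ v ∈ V, c v * χ (v : ZMod s)‖ ^ 2 =
        ‖∑ b ∈ (univ : Finset (ZMod s)).erase 0, χ⁻¹ b * S b‖ ^ 2 := by
    intro χ hχ
    have hχ1 : χ ≠ 1 := Finset.ne_of_mem_erase hχ
    have hχi : χ⁻¹ ≠ 1 := by simpa using hχ1
    have e1 : (∑ v ∈ V, c v * χ (v : ZMod s)) * gaussSum χ⁻¹ ψ =
        ∑ b ∈ (univ : Finset (ZMod s)).erase 0, χ⁻¹ b * S b := by
      rw [Finset.sum_mul]
      have e2 : ∀ v ∈ V, c v * χ (v : ZMod s) * gaussSum χ⁻¹ ψ =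
          ∑ b : ZMod s, χ⁻¹ b * (c v * ψ (b * (v : ZMod s))) := by
        intro v _
        rw [mul_assoc, hexp χ hχ1, Finset.mul_sum]
        refine Finset.sum_congr rfl fun b _ => ?_
        ring
      rw [Finset.sum_congr rfl e2, Finset.sum_comm]
      rw [← Finset.add_sum_erase _ _ (Finset.mem_univ (0 : ZMod s))]
      have e3 : ∑ v ∈ V, χ⁻¹ (0 : ZMod s) * (c v * ψ (0 * (v : ZMod s))) = 0 := by
        rw [MulChar.map_nonunit χ⁻¹ (by simp)]
        simp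
      rw [e3, zero_add]
      refine Finset.sum_congr rfl fun b _ => ?_
      rw [hS, Finset.mul_sum]
    have e4 := congrArg (fun z : ℂ => ‖z‖ ^ 2) e1
    simp only [norm_mul, mul_pow] at e4
    rw [norm_gaussSum_stdAddChar _ hχi, Real.sq_sqrt hs.le] at e4
    rw [← e4, mul_comm]
  -- orthogonality
  have h2 : ((∑ χ : DirichletCharacter ℂ s,
      ‖∑ b ∈ (univ : Finset (ZMod s)).erase 0, χ⁻¹ b * S b‖ ^ 2 : ℝ) : ℂ) =
      ((s.totient : ℝ) * ∑ b ∈ (univ : Finset (ZMod s)).erase 0, ‖S b‖ ^ 2 : ℝ) := by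
    push_cast
    have e5 : ∀ χ : DirichletCharacter ℂ s,
        ((‖∑ b ∈ (univ : Finset (ZMod s)).erase 0, χ⁻¹ b * S b‖ : ℝ) : ℂ) ^ 2 =
        ∑ b ∈ (univ : Finset (ZMod s)).erase 0, ∑ b' ∈ (univ : Finset (ZMod s)).erase 0,
          (S b * (starRingEnd ℂ) (S b')) * (χ b⁻¹ * χ b') := by
      intro χ
      have e6 : ((‖∑ b ∈ (univ : Finset (ZMod s)).erase 0, χ⁻¹ b * S b‖ : ℝ) : ℂ) ^ 2 =
          (∑ b ∈ (univ : Finset (ZMod s)).erase 0, χ⁻¹ b * S b) *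
          (starRingEnd ℂ) (∑ b ∈ (univ : Finset (ZMod s)).erase 0, χ⁻¹ b * S b) := by
        rw [Complex.mul_conj, Complex.normSq_eq_norm_sq]
        push_cast
        rfl
      rw [e6, map_sum, Finset.sum_mul_sum]
      refine Finset.sum_congr rfl fun b hb => Finset.sum_congr rfl fun b' hb' => ?_
      have hc : (starRingEnd ℂ) (χ⁻¹ b') = χ b' := by
        have := MulChar.star_apply' χ⁻¹ b'
        rw [inv_inv] at this
        exact this
      rw [map_mul, hc, MulChar.inv_apply']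
      ring
    simp_rw [e5]
    rw [Finset.sum_comm]
    rw [Finset.mul_sum]
    refine Finset.sum_congr rfl fun b hb => ?_
    rw [Finset.sum_comm]
    have hbu : IsUnit b := IsUnit.mk0 b (Finset.ne_of_mem_erase hb)
    have e7 : ∀ b' ∈ (univ : Finset (ZMod s)).erase 0, ∑ χ : DirichletCharacter ℂ s,
        (S b * (starRingEnd ℂ) (S b')) * (χ b⁻¹ * χ b') =
        if b = b' then (S b * (starRingEnd ℂ) (S b')) * (s.totient : ℂ) else 0 := by
      intro b' _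
      rw [← Finset.mul_sum, DirichletCharacter.sum_char_inv_mul_char_eq ℂ hbu b']
      split_ifs <;> simp
    rw [Finset.sum_congr rfl e7, Finset.sum_ite_eq, if_pos hb, Complex.mul_conj,
      Complex.normSq_eq_norm_sq]
    push_cast
    ring
  have h3 : ∑ χ : DirichletCharacter ℂ s,
      ‖∑ b ∈ (univ : Finset (ZMod s)).erase 0, χ⁻¹ b * S b‖ ^ 2 =
      (s.totient : ℝ) * ∑ b ∈ (univ : Finset (ZMod s)).erase 0, ‖S b‖ ^ 2 := by
    exact_mod_cast h2
  have h4 : (s : ℝ) * ∑ χ ∈ (univ : Finset (DirichletCharacter ℂ s)).erase 1,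
      ‖∑ v ∈ V, c v * χ (v : ZMod s)‖ ^ 2 ≤
      (s : ℝ) * ∑ b ∈ (univ : Finset (ZMod s)).erase 0, ‖S b‖ ^ 2 := by
    rw [Finset.mul_sum, Finset.sum_congr rfl h1]
    calc ∑ χ ∈ (univ : Finset (DirichletCharacter ℂ s)).erase 1,
          ‖∑ b ∈ (univ : Finset (ZMod s)).erase 0, χ⁻¹ b * S b‖ ^ 2
        ≤ ∑ χ : DirichletCharacter ℂ s,
          ‖∑ b ∈ (univ : Finset (ZMod s)).erase 0, χ⁻¹ b * S b‖ ^ 2 := by
          apply Finset.sum_le_sum_of_subset_of_nonneg (Finset.erase_subset _ _)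
          intro χ _ _
          positivity
      _ = (s.totient : ℝ) * ∑ b ∈ (univ : Finset (ZMod s)).erase 0, ‖S b‖ ^ 2 := h3
      _ ≤ (s : ℝ) * ∑ b ∈ (univ : Finset (ZMod s)).erase 0, ‖S b‖ ^ 2 := by
          apply mul_le_mul_of_nonneg_right
          · exact_mod_cast Nat.totient_le s
          · exact Finset.sum_nonneg fun b _ => by positivity
  exact le_of_mul_le_mul_left h4 hs

/-- the pairs of a prime `s` and a residue `1 ≤ b < s` -/
def prs (R : ℕ) : Finset (Σ _ : ℕ, ℕ) := (PR R).sigma fun s => Ico 1 s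

theorem mem_prs {R : ℕ} {p : Σ _ : ℕ, ℕ} (h : p ∈ prs R) :
    R < p.1 ∧ p.1 ≤ 2 * R ∧ p.1.Prime ∧ 1 ≤ p.2 ∧ p.2 < p.1 := by
  rw [prs, Finset.mem_sigma, PR, Finset.mem_filter, Finset.mem_Ioc, Finset.mem_Ico] at h
  exact ⟨h.1.1.1, h.1.1.2, h.1.2, h.2.1, h.2.2⟩

theorem prs_spaced {R : ℕ} (hR : 1 ≤ R) (p q : Σ _ : ℕ, ℕ) (hp : p ∈ prs R) (hq : q ∈ prs R)
    (hpq : p ≠ q) :
    1 / (4 * (R : ℝ) ^ 2) ≤ dni ((p.2 : ℝ) / p.1 - (q.2 : ℝ) / q.1) := by
  obtain ⟨s, b⟩ := p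
  obtain ⟨s', b'⟩ := q
  obtain ⟨h1, h2, h3, h4, h5⟩ := mem_prs hp
  obtain ⟨h1', h2', h3', h4', h5'⟩ := mem_prs hq
  simp only at h1 h2 h3 h4 h5 h1' h2' h3' h4' h5' ⊢
  set n := round ((b : ℝ) / s - (b' : ℝ) / s') with hn
  have hs0 : (0 : ℝ) < s := by exact_mod_cast h3.pos
  have hs0' : (0 : ℝ) < s' := by exact_mod_cast h3'.pos
  have hR0 : (0 : ℝ) < R := by exact_mod_cast hR
  have e1 : (b : ℝ) / s - (b' : ℝ) / s' - n =
      (((b : ℤ) * s' - b' * s - n * (s * s') : ℤ) : ℝ) / (s * s') := by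
    push_cast
    field_simp
  have hne : ((b : ℤ) * s' - b' * s - n * (s * s') : ℤ) ≠ 0 := by
    intro h0
    have hd : (s : ℤ) ∣ (b : ℤ) * s' := by
      refine ⟨b' + n * s', ?_⟩
      linear_combination h0
    have hd' : s ∣ b * s' := by exact_mod_cast hd
    rcases h3.dvd_mul.1 hd' with h | h
    · have := Nat.le_of_dvd (by omega) h
      omega
    · have hss : s = s' := (Nat.prime_dvd_prime_iff_eq h3 h3').1 h
      subst hss
      have h6 : (s : ℤ) * ((b : ℤ) - b' - n * s) = 0 := by linear_combination h0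
      have hsz : (s : ℤ) ≠ 0 := by exact_mod_cast h3.pos.ne'
      have h7 : (b : ℤ) - b' - n * s = 0 := by
        rcases mul_eq_zero.1 h6 with h8 | h8
        · exact absurd h8 hsz
        · exact h8
      have h9 : (s : ℤ) ∣ (b : ℤ) - b' := ⟨n, by linear_combination h7⟩
      have h10 : (b : ℤ) - b' = 0 := by
        apply Int.eq_zero_of_abs_lt_dvd h9
        rw [abs_lt]
        constructor <;> omega
      apply hpq
      have : b = b' := by omega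
      rw [this]
  have habs : (1 : ℝ) ≤ |(((b : ℤ) * s' - b' * s - n * (s * s') : ℤ) : ℝ)| := by
    rw [← Int.cast_abs]
    exact_mod_cast Int.one_le_abs hne
  have e2 : dni ((b : ℝ) / s - (b' : ℝ) / s') =
      |(((b : ℤ) * s' - b' * s - n * (s * s') : ℤ) : ℝ)| / (s * s') := by
    rw [dni, ← hn, e1, abs_div, abs_of_pos (mul_pos hs0 hs0')]
  rw [e2, div_le_div_iff₀ (by positivity) (by positivity), one_mul]
  have hs2 : (s : ℝ) ≤ 2 * R := by exact_mod_cast h2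
  have hs2' : (s' : ℝ) ≤ 2 * R := by exact_mod_cast h2'
  calc (s : ℝ) * s' ≤ (2 * R) * (2 * R) := by gcongr
    _ = 1 * (4 * (R : ℝ) ^ 2) := by ring
    _ ≤ |(((b : ℤ) * s' - b' * s - n * (s * s') : ℤ) : ℝ)| * (4 * (R : ℝ) ^ 2) := by gcongr

/-- additive large sieve for the fractions with prime denominators -/
theorem ls_prs {R : ℕ} (hR : 1 ≤ R) (c : ℕ → ℂ) (a T : ℕ) :
    ∑ s ∈ PR R, ∑ b ∈ Ico 1 s, ‖∑ v ∈ Ioc a (a + T), c v * ee (v * ((b : ℝ) / s))‖ ^ 2 ≤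
      (T + 4 * (R : ℝ) ^ 2 * (1 + Real.log (4 * (R : ℝ) ^ 2))) * ∑ v ∈ Ioc a (a + T), ‖c v‖ ^ 2 := by
  classical
  have hR0 : (1 : ℝ) ≤ R := by exact_mod_cast hR
  have h1 := add_large_sieve (ι := {p // p ∈ prs R}) (fun p => (p.1.2 : ℝ) / p.1.1)
    (1 / (4 * (R : ℝ) ^ 2)) (by positivity)
    (by rw [div_le_one (by positivity)]; nlinarith)
    (fun i j hij => prs_spaced hR i.1 j.1 i.2 j.2 (fun h => hij (Subtype.ext h))) c a T
  have e1 : ∑ i : {p // p ∈ prs R}, ‖∑ v ∈ Ioc a (a + T), c v *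
      ee (v * ((i.1.2 : ℝ) / i.1.1))‖ ^ 2 =
      ∑ s ∈ PR R, ∑ b ∈ Ico 1 s, ‖∑ v ∈ Ioc a (a + T), c v * ee (v * ((b : ℝ) / s))‖ ^ 2 := by
    rw [Finset.sum_coe_sort (prs R) (fun p : Σ _ : ℕ, ℕ =>
      ‖∑ v ∈ Ioc a (a + T), c v * ee (v * ((p.2 : ℝ) / p.1))‖ ^ 2), prs, Finset.sum_sigma]
  rw [e1] at h1
  simpa only [one_div, inv_inv] using h1

theorem nc_sum_eq {s : ℕ} [Fact s.Prime] (g : (ℕ → ℂ) → ℝ) :
    ∑ χ ∈ nc s, g χ = ∑ χ ∈ (univ : Finset (DirichletCharacter ℂ s)).erase 1,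
      g (fun n => χ (n : ZMod s)) := by
  classical
  have hs : s ≠ 0 := (Fact.out : s.Prime).ne_zero
  rw [nc, dif_neg hs]
  have hinj : Set.InjOn (fun (χ : DirichletCharacter ℂ s) (n : ℕ) => χ (n : ZMod s))
      ((univ : Finset (DirichletCharacter ℂ s)).erase 1 : Finset _) := by
    intro χ _ χ' _ h
    ext u
    have := congrFun h (u : ZMod s).val
    simpa using this
  convert Finset.sum_image (f := g) hinj using 2

/-- multiplicative large sieve on intervals -/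
theorem ls_nc {R : ℕ} (hR : 1 ≤ R) (c : ℕ → ℂ) (a T : ℕ) :
    ∑ s ∈ PR R, ∑ χ ∈ nc s, ‖∑ v ∈ Ioc a (a + T), c v * χ v‖ ^ 2 ≤
      (T + 4 * (R : ℝ) ^ 2 * (1 + Real.log (4 * (R : ℝ) ^ 2))) * ∑ v ∈ Ioc a (a + T), ‖c v‖ ^ 2 := by
  refine le_trans (Finset.sum_le_sum fun s hs => ?_) (ls_prs hR c a T)
  have : Fact s.Prime := ⟨(Finset.mem_filter.1 hs).2⟩
  rw [nc_sum_eq (fun χ => ‖∑ v ∈ Ioc a (a + T), c v * χ v‖ ^ 2)]
  refine (gauss_gen (Ioc a (a + T)) c).trans (le_of_eq ?_)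
  simp_rw [stdAddChar_eq_ee]
  apply Finset.sum_bij (fun (b : ZMod s) _ => b.val)
  · intro b hb
    rw [Finset.mem_Ico]
    refine ⟨?_, ZMod.val_lt b⟩
    rw [Nat.one_le_iff_ne_zero]
    intro h
    exact Finset.ne_of_mem_erase hb ((ZMod.val_eq_zero b).1 h)
  · intro b _ b' _ h
    exact ZMod.val_injective s h
  · intro b hb
    rw [Finset.mem_Ico] at hb
    refine ⟨(b : ZMod s), ?_, ZMod.val_natCast_of_lt hb.2⟩
    rw [Finset.mem_erase]
    refine ⟨?_, Finset.mem_univ _⟩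
    intro h
    have := (ZMod.natCast_eq_zero_iff b s).1 h
    have := Nat.le_of_dvd (by omega) this
    omega
  · intro b _
    rfl

end MP848
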