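import Pool.Agent.Lib.MP_848d44_nt.A.PV

/-!
# MP_848d44_nt: the large sieve for prime moduli (with a loss of a logarithm)
-/

namespace MP848

open Finset Complex

section dual

variable {ι κ : Type*} [Fintype ι]

theorem ls_duality (s : Finset κ) (x : ι → κ → ℂ) (Δ : ℝ) (hΔ : 0 ≤ Δ)
    (h : ∀ b : ι → ℂ, ∑ v ∈ s, ‖∑ i, b i * x i v‖ ^ 2 ≤ Δ * ∑ i, ‖b i‖ ^ 2) (c : κ → ℂ) :
    ∑ i, ‖∑ v ∈ s, c v * x i v‖ ^ 2 ≤ Δ * ∑ v ∈ s, ‖c v‖ ^ 2 := by
  set S : ι → ℂ := fun i => ∑ v ∈ s, c v * x i v with hS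
  set X : ℝ := ∑ i, ‖S i‖ ^ 2 with hX
  set C : ℝ := ∑ v ∈ s, ‖c v‖ ^ 2 with hC
  have hX0 : 0 ≤ X := Finset.sum_nonneg fun i _ => by positivity
  have hC0 : 0 ≤ C := Finset.sum_nonneg fun i _ => by positivity
  set Y : κ → ℂ := fun v => ∑ i, (starRingEnd ℂ) (S i) * x i v with hY
  have e1 : (X : ℂ) = ∑ v ∈ s, c v * Y v := by
    have e2 : (X : ℂ) = ∑ i, (starRingEnd ℂ) (S i) * S i := by
      rw [hX]
      push_cast
      refine Finset.sum_congr rfl fun i _ => ?_
      rw [mul_comm, Complex.mul_conj, Complex.normSq_eq_norm_sq]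
      push_cast
      rfl
    rw [e2]
    simp only [hY, Finset.mul_sum]
    rw [Finset.sum_comm]
    refine Finset.sum_congr rfl fun i _ => ?_
    simp only [hS, Finset.mul_sum]
    refine Finset.sum_congr rfl fun v _ => ?_
    ring
  have h1 : X ≤ ∑ v ∈ s, ‖c v‖ * ‖Y v‖ := by
    have : X = ‖(X : ℂ)‖ := by rw [Complex.norm_real, Real.norm_of_nonneg hX0]
    rw [this, e1]
    exact (norm_sum_le _ _).trans (Finset.sum_le_sum fun v _ => norm_mul_le _ _)
  have h2 : X ≤ Real.sqrt C * Real.sqrt (Δ * X) := by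
    refine h1.trans ((Real.sum_mul_le_sqrt_mul_sqrt s _ _).trans ?_)
    refine mul_le_mul_of_nonneg_left (Real.sqrt_le_sqrt ?_) (Real.sqrt_nonneg _)
    refine (h fun i => (starRingEnd ℂ) (S i)).trans (le_of_eq ?_)
    simp [hX]
  rcases hX0.eq_or_lt with h0 | h0
  · rw [← h0]; positivity
  · have h3 : X * X ≤ C * (Δ * X) := by
      have h4 : X ^ 2 ≤ (Real.sqrt C * Real.sqrt (Δ * X)) ^ 2 := pow_le_pow_left₀ hX0 h2 2
      rw [mul_pow, Real.sq_sqrt hC0, Real.sq_sqrt (mul_nonneg hΔ hX0)] at h4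
      nlinarith
    have h5 : X * X ≤ (Δ * C) * X := by nlinarith
    exact le_of_mul_le_mul_right h5 h0

theorem ls_schur (s : Finset κ) (x : ι → κ → ℂ) (Δ : ℝ) (k : ι → ι → ℝ)
    (hk : ∀ i j, ‖∑ v ∈ s, x i v * (starRingEnd ℂ) (x j v)‖ ≤ k i j)
    (hsymm : ∀ i j, k i j = k j i) (hrow : ∀ i, ∑ j, k i j ≤ Δ) (b : ι → ℂ) :
    ∑ v ∈ s, ‖∑ i, b i * x i v‖ ^ 2 ≤ Δ * ∑ i, ‖b i‖ ^ 2 := by
  have e1 : ((∑ v ∈ s, ‖∑ i, b i * x i v‖ ^ 2 : ℝ) : ℂ) =
      ∑ i, ∑ j, b i * (starRingEnd ℂ) (b j) * ∑ v ∈ s, x i v * (starRingEnd ℂ) (x j v) := by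
    push_cast
    have e2 : ∀ v ∈ s, ((‖∑ i, b i * x i v‖ : ℝ) : ℂ) ^ 2 =
        ∑ i, ∑ j, b i * (starRingEnd ℂ) (b j) * (x i v * (starRingEnd ℂ) (x j v)) := by
      intro v _
      have e3 : ((‖∑ i, b i * x i v‖ : ℝ) : ℂ) ^ 2 =
          (∑ i, b i * x i v) * (starRingEnd ℂ) (∑ i, b i * x i v) := by
        rw [Complex.mul_conj, Complex.normSq_eq_norm_sq]
        push_cast
        rfl
      rw [e3, map_sum, Finset.sum_mul_sum]
      refine Finset.sum_congr rfl fun i _ => Finset.sum_congr rfl fun j _ => ?_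
      rw [map_mul]
      ring
    rw [Finset.sum_congr rfl e2, Finset.sum_comm]
    refine Finset.sum_congr rfl fun i _ => ?_
    rw [Finset.sum_comm]
    refine Finset.sum_congr rfl fun j _ => ?_
    rw [Finset.mul_sum]
  have h0 : 0 ≤ ∑ v ∈ s, ‖∑ i, b i * x i v‖ ^ 2 := Finset.sum_nonneg fun v _ => by positivity
  have h1 : ∑ v ∈ s, ‖∑ i, b i * x i v‖ ^ 2 ≤ ∑ i, ∑ j, ‖b i‖ * ‖b j‖ * k i j := by
    have e3 : ∑ v ∈ s, ‖∑ i, b i * x i v‖ ^ 2 =
        ‖((∑ v ∈ s, ‖∑ i, b i * x i v‖ ^ 2 : ℝ) : ℂ)‖ := by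
      rw [Complex.norm_real, Real.norm_of_nonneg h0]
    rw [e3, e1]
    refine (norm_sum_le _ _).trans (Finset.sum_le_sum fun i _ => (norm_sum_le _ _).trans
      (Finset.sum_le_sum fun j _ => ?_))
    rw [norm_mul, norm_mul, RCLike.norm_conj]
    exact mul_le_mul_of_nonneg_left (hk i j) (by positivity)
  have hk0 : ∀ i j, 0 ≤ k i j := fun i j => (norm_nonneg _).trans (hk i j)
  have h2 : ∑ i, ∑ j, ‖b i‖ * ‖b j‖ * k i j ≤
      ∑ i, ∑ j, (‖b i‖ ^ 2 * k i j / 2 + ‖b j‖ ^ 2 * k j i / 2) := by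
    refine Finset.sum_le_sum fun i _ => Finset.sum_le_sum fun j _ => ?_
    rw [hsymm j i]
    nlinarith [hk0 i j, mul_nonneg (hk0 i j) (sq_nonneg (‖b i‖ - ‖b j‖))]
  have h3 : ∑ i, ∑ j, (‖b i‖ ^ 2 * k i j / 2 + ‖b j‖ ^ 2 * k j i / 2) =
      ∑ i, ‖b i‖ ^ 2 * ∑ j, k i j := by
    simp_rw [Finset.sum_add_distrib]
    rw [Finset.sum_comm (f := fun i j => ‖b j‖ ^ 2 * k j i / 2), ← Finset.sum_add_distrib]
    refine Finset.sum_congr rfl fun i _ => ?_
    rw [← Finset.sum_add_distrib, Finset.mul_sum]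
    refine Finset.sum_congr rfl fun j _ => ?_
    ring
  refine h1.trans (h2.trans ?_)
  rw [h3, Finset.mul_sum]
  refine Finset.sum_le_sum fun i _ => ?_
  rw [mul_comm Δ]
  exact mul_le_mul_of_nonneg_left (hrow i) (by positivity)

end dual

/-- distance to the nearest integer -/
noncomputable def dni (t : ℝ) : ℝ := |t - round t|

theorem dni_le (t : ℝ) (n : ℤ) : dni t ≤ |t - n| := round_le t n

theorem dni_neg (t : ℝ) : dni (-t) = dni t := by
  apply le_antisymm
  · have := dni_le (-t) (-round t)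
    refine this.trans (le_of_eq ?_)
    rw [dni, ← abs_neg]
    congr 1
    push_cast
    ring
  · have := dni_le t (-round (-t))
    refine this.trans (le_of_eq ?_)
    rw [dni, ← abs_neg]
    congr 1
    push_cast
    ring

/-- the additive character -/
noncomputable def ee (t : ℝ) : ℂ := Complex.exp (2 * Real.pi * t * Complex.I)

theorem ee_norm (t : ℝ) : ‖ee t‖ = 1 := by
  have : ee t = Complex.exp (((2 * Real.pi * t : ℝ) : ℂ) * Complex.I) := by
    rw [ee]; push_cast; rfl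
  rw [this, Complex.norm_exp_ofReal_mul_I]

theorem ee_sub_one (t : ℝ) : 4 * dni t ≤ ‖ee t - 1‖ := by
  have h1 : ee t = ee (t - round t) := by
    rw [ee, ee, Complex.exp_eq_exp_iff_exists_int]
    refine ⟨round t, ?_⟩
    push_cast
    ring
  rw [h1]
  set r := t - round t with hr
  have hd : dni t = |r| := rfl
  have hr2 : |r| ≤ 1 / 2 := abs_sub_round t
  have h2 : ee r = Complex.exp (Complex.I * ((2 * Real.pi * r : ℝ) : ℂ)) := by
    rw [ee]; congr 1; push_cast; ring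
  rw [h2, Complex.norm_exp_I_mul_ofReal_sub_one, hd, norm_mul, Real.norm_eq_abs, Real.norm_eq_abs,
    abs_of_pos (by norm_num : (0 : ℝ) < 2)]
  have h3 : |Real.sin (2 * Real.pi * r / 2)| = Real.sin (Real.pi * |r|) := by
    have h4 : 0 ≤ Real.sin (Real.pi * |r|) := by
      apply Real.sin_nonneg_of_nonneg_of_le_pi
      · positivity
      · nlinarith [Real.pi_pos, abs_nonneg r]
    rcases abs_cases r with ⟨h, _⟩ | ⟨h, _⟩
    · rw [h] at h4 ⊢
      rw [show 2 * Real.pi * r / 2 = Real.pi * r by ring, abs_of_nonneg h4]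
    · rw [h] at h4 ⊢
      rw [show 2 * Real.pi * r / 2 = -(Real.pi * (-r)) by ring, Real.sin_neg, abs_neg,
        abs_of_nonneg h4]
  rw [h3]
  have h5 : (2 : ℝ) / Real.pi * (Real.pi * |r|) ≤ Real.sin (Real.pi * |r|) := by
    apply Real.mul_le_sin
    · positivity
    · nlinarith [Real.pi_pos, abs_nonneg r]
  have h6 : (2 : ℝ) / Real.pi * (Real.pi * |r|) = 2 * |r| := by
    field_simp
  rw [h6] at h5
  linarith

theorem ee_add (t u : ℝ) : ee (t + u) = ee t * ee u := by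
  rw [ee, ee, ee, ← Complex.exp_add]
  congr 1
  push_cast
  ring

theorem ee_nat_mul (n : ℕ) (t : ℝ) : ee (n * t) = ee t ^ n := by
  rw [ee, ee, ← Complex.exp_nat_mul]
  congr 1
  push_cast
  ring

theorem ee_conj (t : ℝ) : (starRingEnd ℂ) (ee t) = ee (-t) := by
  rw [ee, ee, ← Complex.exp_conj]
  congr 1
  simp [Complex.conj_ofReal, Complex.conj_ofNat]

theorem geom_le (t : ℝ) (ht : 0 < dni t) (a T : ℕ) :
    ‖∑ v ∈ Ioc a (a + T), ee (v * t)‖ ≤ 1 / (2 * dni t) := by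
  set z := ee t with hz
  have hz1 := ee_sub_one t
  rw [← hz] at hz1
  have hzn : ‖z‖ = 1 := ee_norm t
  have hterm : ∀ v ∈ Ioc a (a + T), ee (v * t) = z ^ v := fun v _ => ee_nat_mul v t
  rw [Finset.sum_congr rfl hterm]
  have key : ∀ T : ℕ, (∑ v ∈ Ioc a (a + T), z ^ v) * (z - 1) = z ^ (a + T + 1) - z ^ (a + 1) := by
    intro T
    induction T with
    | zero => simp
    | succ T ih =>
      rw [← add_assoc, Finset.sum_Ioc_succ_top (by omega), add_mul, ih]
      ring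
  have h1 : ‖(∑ v ∈ Ioc a (a + T), z ^ v) * (z - 1)‖ ≤ 2 := by
    rw [key]
    refine (norm_sub_le _ _).trans ?_
    rw [norm_pow, norm_pow, hzn]
    norm_num
  rw [norm_mul] at h1
  rw [le_div_iff₀ (by positivity)]
  have h2 := norm_nonneg (∑ v ∈ Ioc a (a + T), z ^ v)
  nlinarith

/-- sums over well spaced points -/
theorem spaced_sum {ι : Type*} (J : Finset ι) (t : ι → ℝ) (δ : ℝ) (hδ : 0 < δ) (hδ1 : δ ≤ 1)
    (h1 : ∀ j ∈ J, δ ≤ t j) (h2 : ∀ j ∈ J, t j ≤ 1)
    (h3 : ∀ j ∈ J, ∀ k ∈ J, j ≠ k → δ ≤ |t j - t k|) :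
    ∑ j ∈ J, 1 / (2 * t j) ≤ 1 / (2 * δ) * (1 + Real.log (1 / δ)) := by
  classical
  set g : ι → ℕ := fun j => ⌊t j / δ⌋₊ with hg
  have hg1 : ∀ j ∈ J, 1 ≤ g j := by
    intro j hj
    simp only [hg]
    rw [Nat.one_le_floor_iff, le_div_iff₀ hδ, one_mul]
    exact h1 j hj
  have hg2 : ∀ j ∈ J, g j ≤ ⌊1 / δ⌋₊ := by
    intro j hj
    apply Nat.floor_le_floor
    gcongr
    exact h2 j hj
  have hginj : Set.InjOn g (J : Set ι) := by
    intro j hj k hk hjk
    by_contra hne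
    have h4 := h3 j hj k hk hne
    have hj0 : 0 ≤ t j / δ := div_nonneg (hδ.le.trans (h1 j hj)) hδ.le
    have hk0 : 0 ≤ t k / δ := div_nonneg (hδ.le.trans (h1 k hk)) hδ.le
    have a1 := Nat.floor_le hj0
    have a2 := Nat.lt_floor_add_one (t j / δ)
    have a3 := Nat.floor_le hk0
    have a4 := Nat.lt_floor_add_one (t k / δ)
    simp only [hg] at hjk
    rw [hjk] at a1 a2
    have h5 : |t j / δ - t k / δ| < 1 := by
      rw [abs_lt]
      constructor <;> linarith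
    rw [← sub_div, abs_div, abs_of_pos hδ, div_lt_one hδ] at h5
    linarith
  have hterm : ∀ j ∈ J, 1 / (2 * t j) ≤ 1 / (2 * δ) * (1 / (g j : ℝ)) := by
    intro j hj
    have hgr : (1 : ℝ) ≤ g j := by exact_mod_cast hg1 j hj
    have h4 : (g j : ℝ) * δ ≤ t j := by
      have := Nat.floor_le (div_nonneg (hδ.le.trans (h1 j hj)) hδ.le)
      rwa [le_div_iff₀ hδ] at this
    rw [div_mul_div_comm, one_mul]
    apply one_div_le_one_div_of_le
    · positivity
    · nlinarith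
  refine (Finset.sum_le_sum hterm).trans ?_
  rw [← Finset.mul_sum]
  refine mul_le_mul_of_nonneg_left ?_ (by positivity)
  rw [← Finset.sum_image (f := fun k : ℕ => 1 / (k : ℝ)) hginj]
  have hsub : J.image g ⊆ Finset.Icc 1 ⌊1 / δ⌋₊ := by
    intro k hk
    rw [Finset.mem_image] at hk
    obtain ⟨j, hj, rfl⟩ := hk
    exact Finset.mem_Icc.2 ⟨hg1 j hj, hg2 j hj⟩
  refine (Finset.sum_le_sum_of_subset_of_nonneg hsub (fun k _ _ => by positivity)).trans ?_
  have h := harmonic_le_one_add_log ⌊1 / δ⌋₊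
  rw [harmonic_eq_sum_Icc] at h
  push_cast at h
  simp only [one_div] at h ⊢
  refine h.trans ?_
  have hd1 : 1 ≤ δ⁻¹ := (one_le_inv₀ hδ).2 hδ1
  have hf1 : 1 ≤ ⌊δ⁻¹⌋₊ := by
    rw [Nat.one_le_floor_iff]
    exact hd1
  have : Real.log (⌊δ⁻¹⌋₊ : ℝ) ≤ Real.log δ⁻¹ := by
    apply Real.log_le_log (by exact_mod_cast hf1)
    exact Nat.floor_le (by positivity)
  linarith

/-- the additive large sieve -/
theorem add_large_sieve {ι : Type*} [Fintype ι] (α : ι → ℝ) (δ : ℝ) (hδ : 0 < δ) (hδ1 : δ ≤ 1)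
    (hα : ∀ i j, i ≠ j → δ ≤ dni (α i - α j)) (c : ℕ → ℂ) (a T : ℕ) :
    ∑ i, ‖∑ v ∈ Ioc a (a + T), c v * ee (v * α i)‖ ^ 2 ≤
      (T + 1 / δ * (1 + Real.log (1 / δ))) * ∑ v ∈ Ioc a (a + T), ‖c v‖ ^ 2 := by
  classical
  have hlog : 0 ≤ Real.log (1 / δ) := Real.log_nonneg (by rw [le_div_iff₀ hδ]; linarith)
  apply ls_duality (Ioc a (a + T)) (fun i v => ee (v * α i)) _ (by positivity)
  apply ls_schur (Ioc a (a + T)) (fun i (v : ℕ) => ee (v * α i)) _
    (fun i j => if i = j then (T : ℝ) else 1 / (2 * dni (α i - α j)))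
  · intro i j
    have e1 : ∑ v ∈ Ioc a (a + T), ee (v * α i) * (starRingEnd ℂ) (ee (v * α j)) =
        ∑ v ∈ Ioc a (a + T), ee (v * (α i - α j)) := by
      refine Finset.sum_congr rfl fun v _ => ?_
      rw [ee_conj, ← ee_add]
      congr 1
      ring
    simp only [e1]
    split_ifs with h
    · subst h
      refine (norm_sum_le _ _).trans (le_of_eq ?_)
      simp [ee_norm]
    · exact geom_le _ (lt_of_lt_of_le hδ (hα i j h)) a T
  · intro i j
    by_cases h : i = j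
    · subst h; rfl
    · rw [if_neg h, if_neg (Ne.symm h), ← dni_neg, neg_sub]
  · intro i
    rw [← Finset.add_sum_erase _ _ (Finset.mem_univ i), if_pos rfl]
    have e2 : ∑ j ∈ univ.erase i, (if i = j then (T : ℝ) else 1 / (2 * dni (α i - α j))) =
        ∑ j ∈ univ.erase i, 1 / (2 * dni (α i - α j)) := by
      refine Finset.sum_congr rfl fun j hj => ?_
      rw [if_neg (Finset.ne_of_mem_erase hj).symm]
    rw [e2]
    set r : ι → ℝ := fun j => (α i - α j) - round (α i - α j) with hr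
    have hrr : ∀ j, dni (α i - α j) = |r j| := fun j => rfl
    have hr12 : ∀ j, |r j| ≤ 1 / 2 := fun j => abs_sub_round _
    have hdiff : ∀ j k, j ≠ k → δ ≤ |r j - r k| := by
      intro j k hjk
      have h1 := hα j k hjk
      rw [← dni_neg] at h1
      have h2 := dni_le (-(α j - α k)) (round (α i - α j) - round (α i - α k))
      refine h1.trans (h2.trans (le_of_eq ?_))
      simp only [hr]
      congr 1
      push_cast
      ring
    have hsplit : ∑ j ∈ univ.erase i, 1 / (2 * dni (α i - α j)) =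
        ∑ j ∈ (univ.erase i).filter (fun j => 0 ≤ r j), 1 / (2 * r j) +
        ∑ j ∈ (univ.erase i).filter (fun j => ¬ 0 ≤ r j), 1 / (2 * (-r j)) := by
      rw [← Finset.sum_filter_add_sum_filter_not (univ.erase i) (fun j => 0 ≤ r j)]
      congr 1
      · refine Finset.sum_congr rfl fun j hj => ?_
        rw [hrr, abs_of_nonneg (Finset.mem_filter.1 hj).2]
      · refine Finset.sum_congr rfl fun j hj => ?_
        rw [hrr, abs_of_neg (not_le.1 (Finset.mem_filter.1 hj).2)]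
    rw [hsplit]
    have hA := spaced_sum ((univ.erase i).filter (fun j => 0 ≤ r j)) r δ hδ hδ1
      (fun j hj => by
        have h1 := hα i j (Finset.ne_of_mem_erase (Finset.mem_filter.1 hj).1).symm
        rwa [hrr, abs_of_nonneg (Finset.mem_filter.1 hj).2] at h1)
      (fun j _ => by
        have := hr12 j
        have := le_abs_self (r j)
        linarith)
      (fun j _ k _ hjk => hdiff j k hjk)
    have hB := spaced_sum ((univ.erase i).filter (fun j => ¬ 0 ≤ r j)) (fun j => -r j) δ hδ hδ1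
      (fun j hj => by
        have h1 := hα i j (Finset.ne_of_mem_erase (Finset.mem_filter.1 hj).1).symm
        rwa [hrr, abs_of_neg (not_le.1 (Finset.mem_filter.1 hj).2)] at h1)
      (fun j _ => by
        have := hr12 j
        have := neg_le_abs (r j)
        linarith)
      (fun j _ k _ hjk => by
        have := hdiff j k hjk
        rw [← abs_neg] at this
        convert this using 2
        ring)
    have e3 : 1 / (2 * δ) * (1 + Real.log (1 / δ)) + 1 / (2 * δ) * (1 + Real.log (1 / δ)) =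
        1 / δ * (1 + Real.log (1 / δ)) := by
      field_simp
      norm_num
    linarith

end MP848
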