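import Mathlib

/-!
# MP_848d44_nt: the Pólya–Vinogradov inequality for prime moduli

For a prime `p`, a nontrivial Dirichlet character `χ` mod `p` and integers `a, b`:
`‖∑_{a < n ≤ b} χ(n)‖ ≤ √p (1 + log p)`.
-/

namespace MP848

open Finset Complex

lemma norm_stdAddChar_sub_one_ge {p : ℕ} [NeZero p] (b : ZMod p) :
    4 * (b.valMinAbs.natAbs : ℝ) / p ≤ ‖(ZMod.stdAddChar b : ℂ) - 1‖ := by
  have hp : (0 : ℝ) < p := by exact_mod_cast Nat.pos_of_ne_zero (NeZero.ne p)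
  set j : ℤ := b.valMinAbs with hj
  have hbj : b = ((j : ℤ) : ZMod p) := by rw [hj, ZMod.coe_valMinAbs]
  have h1 : (ZMod.stdAddChar b : ℂ) = Complex.exp (Complex.I * ((2 * Real.pi * j / p : ℝ) : ℂ)) := by
    rw [hbj, ZMod.stdAddChar_coe]
    congr 1
    push_cast
    ring
  rw [h1, Complex.norm_exp_I_mul_ofReal_sub_one]
  have hle : (j.natAbs : ℝ) ≤ p / 2 := by
    have := ZMod.natAbs_valMinAbs_le b
    rw [← hj] at this
    have h2 : ((j.natAbs : ℕ) : ℝ) ≤ ((p / 2 : ℕ) : ℝ) := by exact_mod_cast this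
    exact h2.trans (Nat.cast_div_le)
  have hnat : ((j.natAbs : ℕ) : ℝ) = |(j : ℝ)| := by
    rw [Nat.cast_natAbs]; push_cast; rfl
  have hpi := Real.pi_pos
  have h3 : ‖(2 * Real.sin (2 * Real.pi * j / p / 2) : ℝ)‖
      = 2 * Real.sin (Real.pi * |(j : ℝ)| / p) := by
    rw [norm_mul, Real.norm_eq_abs, Real.norm_eq_abs, abs_of_pos (by norm_num : (0 : ℝ) < 2)]
    congr 1
    have h4 : (0:ℝ) ≤ Real.sin (Real.pi * |(j : ℝ)| / p) := by
      apply Real.sin_nonneg_of_nonneg_of_le_pi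
      · positivity
      · rw [div_le_iff₀ hp]
        rw [hnat] at hle
        nlinarith [abs_nonneg (j : ℝ)]
    rcases abs_cases (j : ℝ) with ⟨h, _⟩ | ⟨h, _⟩
    · rw [h] at h4 ⊢
      rw [show 2 * Real.pi * j / p / 2 = Real.pi * j / p by ring, abs_of_nonneg h4]
    · rw [h] at h4 ⊢
      rw [show 2 * Real.pi * j / p / 2 = -(Real.pi * (-j) / p) by ring, Real.sin_neg, abs_neg,
        abs_of_nonneg h4]
  have h5 : (2 : ℝ) / Real.pi * (Real.pi * |(j : ℝ)| / p) ≤ Real.sin (Real.pi * |(j : ℝ)| / p) := by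
    apply Real.mul_le_sin
    · positivity
    · rw [div_le_iff₀ hp]
      rw [hnat] at hle
      nlinarith [abs_nonneg (j : ℝ)]
  have h6 : (2 : ℝ) / Real.pi * (Real.pi * |(j : ℝ)| / p) = 2 * |(j : ℝ)| / p := by
    field_simp
  rw [h6] at h5
  rw [h3, hnat]
  calc 4 * |(j : ℝ)| / p = 2 * (2 * |(j : ℝ)| / p) := by ring
    _ ≤ 2 * Real.sin (Real.pi * |(j : ℝ)| / p) := by linarith

/-- geometric sums over integer intervals -/
lemma norm_geom_Ioc_le {p : ℕ} [NeZero p] (b : ZMod p) (hb : b ≠ 0) (u v : ℤ) :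
    ‖∑ n ∈ Finset.Ioc u v, (ZMod.stdAddChar (b * (n : ZMod p)) : ℂ)‖
      ≤ p / (2 * (b.valMinAbs.natAbs : ℝ)) := by
  have hp : (0 : ℝ) < p := by exact_mod_cast Nat.pos_of_ne_zero (NeZero.ne p)
  have hj : b.valMinAbs ≠ 0 := by
    intro h
    exact hb ((ZMod.valMinAbs_eq_zero b).1 h)
  have hjn : (0 : ℝ) < (b.valMinAbs.natAbs : ℝ) := by
    exact_mod_cast Int.natAbs_pos.2 hj
  set z : ℂ := ZMod.stdAddChar b with hz
  have hzn : ‖z‖ = 1 := by
    rw [hz]; exact AddChar.norm_apply _ _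
  have hz0 : z ≠ 0 := by
    intro h; rw [h] at hzn; simp at hzn
  have hge := norm_stdAddChar_sub_one_ge b
  rw [← hz] at hge
  have hz1 : z - 1 ≠ 0 := by
    intro h
    rw [h, norm_zero] at hge
    have : 0 < 4 * (b.valMinAbs.natAbs : ℝ) / p := by positivity
    linarith
  have hterm : ∀ n : ℤ, (ZMod.stdAddChar (b * (n : ZMod p)) : ℂ) = z ^ n := by
    intro n
    rw [hz, ← AddChar.map_zsmul_eq_zpow, zsmul_eq_mul, mul_comm]
  -- telescoping
  have key : ∀ k : ℕ, (∑ n ∈ Finset.Ioc u (u + k), z ^ n) * (z - 1) = z ^ (u + k + 1) - z ^ (u + 1) := by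
    intro k
    induction k with
    | zero => simp
    | succ k ih =>
      have : Finset.Ioc u (u + ((k + 1 : ℕ) : ℤ)) = insert (u + k + 1) (Finset.Ioc u (u + k)) := by
        ext t
        simp only [Finset.mem_Ioc, Finset.mem_insert]
        push_cast
        omega
      rw [this, Finset.sum_insert (by simp), add_mul, ih]
      push_cast
      rw [show u + ((k : ℤ) + 1) + 1 = (u + k + 1) + 1 by ring, zpow_add_one₀ hz0 (u + k + 1)]
      ring
  have hnum : ‖(∑ n ∈ Finset.Ioc u v, z ^ n) * (z - 1)‖ ≤ 2 := by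
    rcases le_or_gt u v with h | h
    · obtain ⟨k, hk⟩ := Int.eq_ofNat_of_zero_le (sub_nonneg.2 h)
      have hv : v = u + k := by omega
      rw [hv, key k]
      calc ‖z ^ (u + k + 1) - z ^ (u + 1)‖ ≤ ‖z ^ (u + k + 1)‖ + ‖z ^ (u + 1)‖ := norm_sub_le _ _
        _ = 2 := by rw [norm_zpow, norm_zpow, hzn]; norm_num
    · rw [Finset.Ioc_eq_empty (by omega)]
      simp
  rw [norm_mul] at hnum
  simp_rw [hterm]
  have hpos : 0 < 4 * (b.valMinAbs.natAbs : ℝ) / p := by positivity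
  have hS := norm_nonneg (∑ n ∈ Finset.Ioc u v, z ^ n)
  have : ‖∑ n ∈ Finset.Ioc u v, z ^ n‖ * (4 * (b.valMinAbs.natAbs : ℝ) / p) ≤ 2 :=
    (mul_le_mul_of_nonneg_left hge hS).trans hnum
  rw [← le_div_iff₀ hpos] at this
  refine this.trans (le_of_eq ?_)
  field_simp
  norm_num

lemma sum_inv_valMinAbs_le {p : ℕ} [NeZero p] (hp2 : 2 ≤ p) :
    ∑ b ∈ (Finset.univ : Finset (ZMod p)).erase 0, (p : ℝ) / (2 * (b.valMinAbs.natAbs : ℝ))
      ≤ p * (1 + Real.log p) := by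
  have hp : (0 : ℝ) < p := by exact_mod_cast Nat.pos_of_ne_zero (NeZero.ne p)
  set m := p / 2 with hm
  have hm1 : 1 ≤ m := by omega
  -- compare with the sum over nonzero integers in [-m, m]
  have h1 : ∑ b ∈ (Finset.univ : Finset (ZMod p)).erase 0, (p : ℝ) / (2 * (b.valMinAbs.natAbs : ℝ))
      ≤ ∑ j ∈ (Finset.Icc (-(m : ℤ)) m).erase 0, (p : ℝ) / (2 * (j.natAbs : ℝ)) := by
    have hinj : Set.InjOn (fun b : ZMod p => b.valMinAbs)
        ((Finset.univ : Finset (ZMod p)).erase 0 : Finset (ZMod p)) :=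
      fun x _ y _ h => ZMod.injective_valMinAbs h
    rw [← Finset.sum_image (f := fun j : ℤ => (p : ℝ) / (2 * (j.natAbs : ℝ))) hinj]
    apply Finset.sum_le_sum_of_subset_of_nonneg
    · intro j hj
      rw [Finset.mem_image] at hj
      obtain ⟨b, hb, rfl⟩ := hj
      have hb0 : b ≠ 0 := (Finset.mem_erase.1 hb).1
      have := ZMod.natAbs_valMinAbs_le b
      rw [Finset.mem_erase, Finset.mem_Icc]
      refine ⟨fun h => hb0 ((ZMod.valMinAbs_eq_zero b).1 h), ?_, ?_⟩ <;> omega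
    · intro j _ _
      positivity
  refine h1.trans ?_
  have h2 : (Finset.Icc (-(m : ℤ)) m).erase 0
      = (Finset.Icc 1 m).image (fun c : ℕ => (c : ℤ)) ∪ (Finset.Icc 1 m).image (fun c : ℕ => -(c : ℤ)) := by
    ext j
    simp only [Finset.mem_erase, Finset.mem_Icc, Finset.mem_union, Finset.mem_image]
    constructor
    · rintro ⟨h0, h1, h2⟩
      rcases lt_or_gt_of_ne h0 with h | h
      · right
        exact ⟨j.natAbs, by omega, by omega⟩
      · left
        exact ⟨j.natAbs, by omega, by omega⟩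
    · rintro (⟨c, hc, rfl⟩ | ⟨c, hc, rfl⟩) <;> omega
  have hdisj : Disjoint ((Finset.Icc 1 m).image (fun c : ℕ => (c : ℤ)))
      ((Finset.Icc 1 m).image (fun c : ℕ => -(c : ℤ))) := by
    rw [Finset.disjoint_left]
    intro j hj hj'
    rw [Finset.mem_image] at hj hj'
    obtain ⟨c, hc, rfl⟩ := hj
    obtain ⟨d, hd, hd'⟩ := hj'
    rw [Finset.mem_Icc] at hc hd
    omega
  rw [h2, Finset.sum_union hdisj, Finset.sum_image (by intro x _ y _ h; simpa using h),
    Finset.sum_image (by intro x _ y _ h; simpa using h)]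
  simp only [Int.natAbs_natCast, Int.natAbs_neg]
  have h3 : ∑ c ∈ Finset.Icc 1 m, (p : ℝ) / (2 * (c : ℝ)) = p / 2 * (harmonic m : ℝ) := by
    rw [harmonic_eq_sum_Icc]
    push_cast
    rw [Finset.mul_sum]
    refine Finset.sum_congr rfl fun c hc => ?_
    have : (0 : ℝ) < c := by
      exact_mod_cast (Finset.mem_Icc.1 hc).1
    field_simp
  rw [h3]
  have h4 : (harmonic m : ℝ) ≤ 1 + Real.log m := harmonic_le_one_add_log m
  have h5 : Real.log m ≤ Real.log p := by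
    apply Real.log_le_log (by exact_mod_cast hm1)
    exact_mod_cast Nat.div_le_self p 2
  nlinarith [hp, h4, h5]

/-- The norm of a nontrivial Gauss sum. -/
lemma norm_gaussSum_stdAddChar {p : ℕ} [Fact p.Prime] (χ : DirichletCharacter ℂ p) (hχ : χ ≠ 1) :
    ‖gaussSum χ (ZMod.stdAddChar : AddChar (ZMod p) ℂ)‖ = √p := by
  have h := gaussSum_mul_gaussSum_eq_card hχ (ZMod.isPrimitive_stdAddChar p)
  rw [← star_gaussSum_eq] at h
  have h2 : ‖gaussSum χ (ZMod.stdAddChar : AddChar (ZMod p) ℂ)‖ ^ 2 = p := by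
    have h3 := congrArg norm h
    rw [norm_mul, norm_star, ZMod.card] at h3
    rw [sq, h3]
    simp
  rw [← h2, Real.sqrt_sq (norm_nonneg _)]

/-- **Pólya–Vinogradov** for prime moduli. -/
theorem polya_vinogradov {p : ℕ} [Fact p.Prime] (χ : DirichletCharacter ℂ p) (hχ : χ ≠ 1)
    (u v : ℤ) :
    ‖∑ n ∈ Finset.Ioc u v, χ (n : ZMod p)‖ ≤ √p * (1 + Real.log p) := by
  have hp : (0 : ℝ) < p := by exact_mod_cast (Fact.out : p.Prime).pos
  set ψ : AddChar (ZMod p) ℂ := ZMod.stdAddChar with hψ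
  have hχi : χ⁻¹ ≠ 1 := by simpa using hχ
  -- expansion of χ in additive characters
  have hexp : ∀ x : ZMod p, χ x * gaussSum χ⁻¹ ψ = ∑ b : ZMod p, χ⁻¹ b * ψ (b * x) := by
    intro x
    by_cases hx : x = 0
    · subst hx
      have : ∑ b : ZMod p, χ⁻¹ b * ψ (b * 0) = 0 := by
        simp only [mul_zero, AddChar.map_zero_eq_one, mul_one]
        exact MulChar.sum_eq_zero_of_ne_one hχi
      rw [this, MulChar.map_nonunit χ (by simp), zero_mul]
    · have hu : IsUnit x := IsUnit.mk0 x hx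
      have := gaussSum_mulShift_eq χ⁻¹ ψ hu.unit
      rw [inv_inv] at this
      rw [IsUnit.unit_spec] at this
      rw [← this, gaussSum]
      refine Finset.sum_congr rfl fun b _ => ?_
      rw [AddChar.mulShift_apply, mul_comm x b]
  have hsum : (∑ n ∈ Finset.Ioc u v, χ (n : ZMod p)) * gaussSum χ⁻¹ ψ
      = ∑ b : ZMod p, χ⁻¹ b * ∑ n ∈ Finset.Ioc u v, ψ (b * (n : ZMod p)) := by
    rw [Finset.sum_mul]
    simp_rw [hexp, Finset.mul_sum]
    rw [Finset.sum_comm]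
  have hbound : ‖(∑ n ∈ Finset.Ioc u v, χ (n : ZMod p)) * gaussSum χ⁻¹ ψ‖
      ≤ p * (1 + Real.log p) := by
    rw [hsum]
    refine (norm_sum_le _ _).trans ?_
    rw [← Finset.add_sum_erase _ _ (Finset.mem_univ (0 : ZMod p))]
    have h0 : ‖χ⁻¹ (0 : ZMod p) * ∑ n ∈ Finset.Ioc u v, ψ (0 * (n : ZMod p))‖ = 0 := by
      rw [MulChar.map_nonunit χ⁻¹ (by simp), zero_mul, norm_zero]
    rw [h0, zero_add]
    refine le_trans (Finset.sum_le_sum fun b hb => ?_)
      (sum_inv_valMinAbs_le (Fact.out : p.Prime).two_le)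
    have hb0 : b ≠ 0 := (Finset.mem_erase.1 hb).1
    rw [norm_mul]
    have h1 : ‖χ⁻¹ b‖ ≤ 1 := DirichletCharacter.norm_le_one _ _
    calc ‖χ⁻¹ b‖ * ‖∑ n ∈ Finset.Ioc u v, ψ (b * (n : ZMod p))‖
        ≤ 1 * ‖∑ n ∈ Finset.Ioc u v, ψ (b * (n : ZMod p))‖ :=
          mul_le_mul_of_nonneg_right h1 (norm_nonneg _)
      _ ≤ _ := by rw [one_mul]; exact norm_geom_Ioc_le b hb0 u v
  rw [norm_mul, norm_gaussSum_stdAddChar _ hχi] at hbound
  have hsq : (0 : ℝ) < √p := Real.sqrt_pos.2 hp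
  have hpp : √(p:ℝ) * √p = p := Real.mul_self_sqrt hp.le
  have : ‖∑ n ∈ Finset.Ioc u v, χ (n : ZMod p)‖ * √p ≤ (√p * (1 + Real.log p)) * √p := by
    calc _ ≤ _ := hbound
      _ = (√p * (1 + Real.log p)) * √p := by
        rw [mul_right_comm, hpp]
  exact le_of_mul_le_mul_right this hsq

end MP848
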