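import Pool.Agent.Lib.MP_848d44_nt.A.PV
import Pool.Agent.Lib.MP_848d44_nt.Defs

/-!
# MP_848d44_nt: Pólya–Vinogradov along progressions, twisted
-/

namespace MP848

open Finset Pool.Agent.M848

theorem mem_nc {s : ℕ} {χ : ℕ → ℂ} (h : χ ∈ nc s) :
    ∃ χ₀ : DirichletCharacter ℂ s, χ₀ ≠ 1 ∧ ∀ n : ℕ, χ n = χ₀ (n : ZMod s) := by
  classical
  rw [nc] at h
  split_ifs at h with hs
  · exact absurd h (Finset.notMem_empty _)
  · rw [Finset.mem_image] at h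
    obtain ⟨χ₀, h1, rfl⟩ := h
    simp only [Finset.mem_erase] at h1
    exact ⟨χ₀, h1.1, fun _ => rfl⟩

theorem mem_ac {d : ℕ} {ξ : ℕ → ℂ} (h : ξ ∈ ac d) :
    ∃ ξ₀ : DirichletCharacter ℂ d, ∀ n : ℕ, ξ n = ξ₀ (n : ZMod d) := by
  classical
  rw [ac] at h
  split_ifs at h with hs
  · exact absurd h (Finset.notMem_empty _)
  · rw [Finset.mem_image] at h
    obtain ⟨χ₀, _, rfl⟩ := h
    exact ⟨χ₀, fun _ => rfl⟩

theorem pv_prog {s : ℕ} (hs : s.Prime) {χ : ℕ → ℂ} (h : χ ∈ nc s) (a d z : ℕ) (hd : ¬ s ∣ d) :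
    ‖∑ j ∈ range z, χ (a + d * j)‖ ≤ Real.sqrt s * (1 + Real.log s) := by
  have : Fact s.Prime := ⟨hs⟩
  obtain ⟨χ₀, hχ, he⟩ := mem_nc h
  have hd0 : (d : ZMod s) ≠ 0 := by
    rw [Ne, ZMod.natCast_eq_zero_iff]
    exact hd
  set u : ℕ := ((d : ZMod s)⁻¹ * (a : ZMod s)).val with hu
  have hu' : (u : ZMod s) = (d : ZMod s)⁻¹ * (a : ZMod s) := by
    rw [hu, ZMod.natCast_zmod_val]
  have h1 : ∀ j, χ (a + d * j) = χ₀ (d : ZMod s) * χ₀ (((u : ℤ) + j : ℤ) : ZMod s) := by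
    intro j
    rw [he, ← map_mul]
    congr 1
    push_cast
    rw [hu', mul_add, ← mul_assoc, mul_inv_cancel₀ hd0, one_mul]
  simp_rw [h1]
  rw [← Finset.mul_sum, norm_mul]
  have h2 : ∑ j ∈ range z, χ₀ (((u : ℤ) + j : ℤ) : ZMod s) =
      ∑ n ∈ Ioc ((u : ℤ) - 1) ((u : ℤ) + z - 1), χ₀ (n : ZMod s) := by
    apply Finset.sum_bij (fun (j : ℕ) _ => (u : ℤ) + j)
    · intro j hj
      rw [Finset.mem_range] at hj
      rw [Finset.mem_Ioc]
      omega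
    · intro j _ k _ hjk
      omega
    · intro n hn
      rw [Finset.mem_Ioc] at hn
      refine ⟨(n - u).toNat, ?_, ?_⟩
      · rw [Finset.mem_range]
        omega
      · omega
    · intro j _
      rfl
  rw [h2]
  calc ‖χ₀ (d : ZMod s)‖ * ‖∑ n ∈ Ioc ((u : ℤ) - 1) ((u : ℤ) + z - 1), χ₀ (n : ZMod s)‖
      ≤ 1 * ‖∑ n ∈ Ioc ((u : ℤ) - 1) ((u : ℤ) + z - 1), χ₀ (n : ZMod s)‖ := by
        gcongr
        exact DirichletCharacter.norm_le_one _ _
    _ ≤ Real.sqrt s * (1 + Real.log s) := by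
        rw [one_mul]
        exact polya_vinogradov χ₀ hχ _ _

/-- a sum over `1 ≤ r ≤ z` by residue classes -/
theorem sum_by_classes (g : ℕ → ℂ) (d z : ℕ) (hd : 1 ≤ d) :
    ∑ r ∈ Icc 1 z, g r = ∑ a ∈ Icc 1 d, ∑ j ∈ range ((z + d - a) / d), g (a + d * j) := by
  rw [Finset.sum_sigma']
  symm
  apply Finset.sum_bij (fun (p : Σ _ : ℕ, ℕ) _ => p.1 + d * p.2)
  · rintro ⟨a, j⟩ hp
    rw [Finset.mem_sigma, Finset.mem_Icc, Finset.mem_range] at hp
    rw [Finset.mem_Icc]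
    obtain ⟨⟨h1, h2⟩, h3⟩ := hp
    simp only at h1 h2 h3 ⊢
    refine ⟨by omega, ?_⟩
    have h4 : (j + 1) * d ≤ z + d - a := (Nat.le_div_iff_mul_le hd).1 h3
    have h5 : (j + 1) * d = d * j + d := by ring
    omega
  · rintro ⟨a, j⟩ hp ⟨b, k⟩ hq h
    rw [Finset.mem_sigma, Finset.mem_Icc, Finset.mem_range] at hp hq
    obtain ⟨⟨h1, h2⟩, h3⟩ := hp
    obtain ⟨⟨h1', h2'⟩, h3'⟩ := hq
    simp only at h h1 h2 h1' h2'
    have hj : j = k := by
      by_contra hne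
      rcases Nat.lt_or_gt_of_ne hne with hlt | hlt
      · have : d * (j + 1) ≤ d * k := Nat.mul_le_mul_left d hlt
        rw [mul_add, mul_one] at this
        omega
      · have : d * (k + 1) ≤ d * j := Nat.mul_le_mul_left d hlt
        rw [mul_add, mul_one] at this
        omega
    subst hj
    have : a = b := by omega
    subst this
    rfl
  · intro r hr
    rw [Finset.mem_Icc] at hr
    refine ⟨⟨(r - 1) % d + 1, (r - 1) / d⟩, ?_, ?_⟩
    · rw [Finset.mem_sigma, Finset.mem_Icc, Finset.mem_range]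
      have h1 := Nat.mod_lt (r - 1) hd
      refine ⟨⟨by simp, by simp only; omega⟩, ?_⟩
      simp only
      rw [Nat.lt_iff_add_one_le, Nat.le_div_iff_mul_le hd]
      have h2 := Nat.div_add_mod (r - 1) d
      have h3 : ((r - 1) / d + 1) * d = d * ((r - 1) / d) + d := by ring
      omega
    · simp only
      have h2 := Nat.div_add_mod (r - 1) d
      omega
  · rintro ⟨a, j⟩ _
    rfl

theorem pvt {s : ℕ} (hs : s.Prime) {χ : ℕ → ℂ} (h : χ ∈ nc s) {d : ℕ} (hd1 : 1 ≤ d)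
    (hd : ¬ s ∣ d) {ξ : ℕ → ℂ} (hξ : ξ ∈ ac d) (z : ℕ) :
    ‖∑ r ∈ Icc 1 z, χ r * ξ r‖ ≤ d * (Real.sqrt s * (1 + Real.log s)) := by
  obtain ⟨ξ₀, he⟩ := mem_ac hξ
  rw [sum_by_classes (fun r => χ r * ξ r) d z hd1]
  have h1 : ∀ a ∈ Icc 1 d, ‖∑ j ∈ range ((z + d - a) / d), χ (a + d * j) * ξ (a + d * j)‖ ≤
      Real.sqrt s * (1 + Real.log s) := by
    intro a _
    have h2 : ∀ j, ξ (a + d * j) = ξ a := by
      intro j
      rw [he, he]
      congr 1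
      push_cast
      simp
    simp_rw [h2]
    rw [← Finset.sum_mul, norm_mul]
    calc ‖∑ j ∈ range ((z + d - a) / d), χ (a + d * j)‖ * ‖ξ a‖
        ≤ (Real.sqrt s * (1 + Real.log s)) * 1 := by
          have h3 := pv_prog hs h a d ((z + d - a) / d) hd
          have h4 : ‖ξ a‖ ≤ 1 := by
            rw [he]; exact DirichletCharacter.norm_le_one _ _
          exact mul_le_mul h3 h4 (norm_nonneg _) ((norm_nonneg _).trans h3)
      _ = _ := mul_one _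
  refine (norm_sum_le _ _).trans ((Finset.sum_le_sum h1).trans (le_of_eq ?_))
  rw [Finset.sum_const, Nat.card_Icc, nsmul_eq_mul, Nat.add_sub_cancel]

end MP848
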