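import Mathlib

/-!
# MP_848d44_nt: the mean square of the divisor function
-/

namespace MP848

open Finset

theorem gcd_sum (K : ℕ) : ∑ a ∈ Ioc 0 K, ∑ b ∈ Ioc 0 K, (Nat.gcd a b : ℝ) / (a * b) ≤
    (∑ g ∈ Ioc 0 K, (1 : ℝ) / g) ^ 3 := by
  classical
  set I := Ioc 0 K with hI
  have h1 : ∑ a ∈ I, ∑ b ∈ I, (Nat.gcd a b : ℝ) / (a * b) =
      ∑ p ∈ I ×ˢ I, (1 : ℝ) / ((Nat.gcd p.1 p.2 : ℕ) : ℝ) *
        ((1 / ((p.1 / Nat.gcd p.1 p.2 : ℕ) : ℝ)) * (1 / ((p.2 / Nat.gcd p.1 p.2 : ℕ) : ℝ))) := by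
    rw [Finset.sum_product]
    refine Finset.sum_congr rfl fun a ha => Finset.sum_congr rfl fun b hb => ?_
    have ha0 : 0 < a := (Finset.mem_Ioc.1 ha).1
    have hb0 : 0 < b := (Finset.mem_Ioc.1 hb).1
    have hg : 0 < Nat.gcd a b := Nat.gcd_pos_of_pos_left b ha0
    have hgr : (Nat.gcd a b : ℝ) ≠ 0 := by exact_mod_cast hg.ne'
    rw [Nat.cast_div (Nat.gcd_dvd_left a b) hgr, Nat.cast_div (Nat.gcd_dvd_right a b) hgr]
    have ha' : (a : ℝ) ≠ 0 := by exact_mod_cast ha0.ne'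
    have hb' : (b : ℝ) ≠ 0 := by exact_mod_cast hb0.ne'
    field_simp
  set T : ℕ × ℕ → ℕ × ℕ × ℕ := fun p =>
    (Nat.gcd p.1 p.2, p.1 / Nat.gcd p.1 p.2, p.2 / Nat.gcd p.1 p.2) with hT
  have hinj : Set.InjOn T (I ×ˢ I : Finset (ℕ × ℕ)) := by
    rintro ⟨a, b⟩ _ ⟨c, d⟩ _ h
    simp only [hT, Prod.mk.injEq] at h
    obtain ⟨h1, h2, h3⟩ := h
    have e1 := Nat.div_mul_cancel (Nat.gcd_dvd_left a b)
    have e2 := Nat.div_mul_cancel (Nat.gcd_dvd_right a b)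
    have e3 := Nat.div_mul_cancel (Nat.gcd_dvd_left c d)
    have e4 := Nat.div_mul_cancel (Nat.gcd_dvd_right c d)
    rw [h2, h1, e3] at e1
    rw [h3, h1, e4] at e2
    rw [e1, e2]
  have h2 : ∑ p ∈ I ×ˢ I, (1 : ℝ) / ((Nat.gcd p.1 p.2 : ℕ) : ℝ) *
        ((1 / ((p.1 / Nat.gcd p.1 p.2 : ℕ) : ℝ)) * (1 / ((p.2 / Nat.gcd p.1 p.2 : ℕ) : ℝ))) ≤
      ∑ t ∈ I ×ˢ (I ×ˢ I), (1 : ℝ) / (t.1 : ℝ) * ((1 / (t.2.1 : ℝ)) * (1 / (t.2.2 : ℝ))) := by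
    have e := Finset.sum_image (f := fun t : ℕ × ℕ × ℕ =>
      (1 : ℝ) / (t.1 : ℝ) * ((1 / (t.2.1 : ℝ)) * (1 / (t.2.2 : ℝ)))) hinj
    rw [← e]
    apply Finset.sum_le_sum_of_subset_of_nonneg
    · intro t ht
      rw [Finset.mem_image] at ht
      obtain ⟨⟨a, b⟩, hp, rfl⟩ := ht
      rw [Finset.mem_product] at hp
      obtain ⟨ha, hb⟩ := hp
      have ha1 := Finset.mem_Ioc.1 ha
      have hb1 := Finset.mem_Ioc.1 hb
      have hg : 0 < Nat.gcd a b := Nat.gcd_pos_of_pos_left b ha1.1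
      have hga : Nat.gcd a b ≤ a := Nat.gcd_le_left b ha1.1
      have hgb : Nat.gcd a b ≤ b := Nat.gcd_le_right a hb1.1
      simp only [hT, Finset.mem_product, hI, Finset.mem_Ioc]
      refine ⟨⟨hg, hga.trans ha1.2⟩, ⟨Nat.div_pos hga hg, (Nat.div_le_self _ _).trans ha1.2⟩,
        ⟨Nat.div_pos hgb hg, (Nat.div_le_self _ _).trans hb1.2⟩⟩
    · intro t _ _
      positivity
  rw [h1]
  refine h2.trans (le_of_eq ?_)
  rw [Finset.sum_product]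
  simp_rw [Finset.sum_product, ← Finset.mul_sum, ← Finset.sum_mul]
  ring

theorem tau_sq_sum (K : ℕ) : ∑ k ∈ Ioc 0 K, ((k.divisors.card : ℕ) : ℝ) ^ 2 ≤
    K * (∑ g ∈ Ioc 0 K, (1 : ℝ) / g) ^ 3 := by
  classical
  have h1 : ∀ k ∈ Ioc 0 K, ((k.divisors.card : ℕ) : ℝ) ^ 2 =
      ∑ a ∈ Ioc 0 K, ∑ b ∈ Ioc 0 K, (if a ∣ k ∧ b ∣ k then (1 : ℝ) else 0) := by
    intro k hk
    have hk' := Finset.mem_Ioc.1 hk
    have e1 : ((k.divisors.card : ℕ) : ℝ) = ∑ a ∈ Ioc 0 K, (if a ∣ k then (1 : ℝ) else 0) := by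
      rw [Finset.sum_boole]
      congr 2
      ext a
      simp only [Nat.mem_divisors, Finset.mem_filter, Finset.mem_Ioc]
      constructor
      · rintro ⟨h1, h2⟩
        exact ⟨⟨Nat.pos_of_dvd_of_pos h1 hk'.1, (Nat.le_of_dvd hk'.1 h1).trans hk'.2⟩, h1⟩
      · rintro ⟨_, h1⟩
        exact ⟨h1, hk'.1.ne'⟩
    rw [e1, sq, Finset.sum_mul_sum]
    refine Finset.sum_congr rfl fun a _ => Finset.sum_congr rfl fun b _ => ?_
    by_cases h1 : a ∣ k <;> by_cases h2 : b ∣ k <;> simp [h1, h2]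
  rw [Finset.sum_congr rfl h1, Finset.sum_comm]
  have h2 : ∀ a ∈ Ioc 0 K, ∑ k ∈ Ioc 0 K, ∑ b ∈ Ioc 0 K, (if a ∣ k ∧ b ∣ k then (1 : ℝ) else 0) ≤
      ∑ b ∈ Ioc 0 K, K * ((Nat.gcd a b : ℝ) / (a * b)) := by
    intro a ha
    rw [Finset.sum_comm]
    refine Finset.sum_le_sum fun b hb => ?_
    have ha0 : 0 < a := (Finset.mem_Ioc.1 ha).1
    have hb0 : 0 < b := (Finset.mem_Ioc.1 hb).1
    rw [Finset.sum_boole]
    have e1 : (Ioc 0 K).filter (fun k => a ∣ k ∧ b ∣ k) =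
        (Ioc 0 K).filter (fun k => Nat.lcm a b ∣ k) := by
      ext k
      simp only [Finset.mem_filter, Nat.lcm_dvd_iff]
    rw [e1, Nat.Ioc_filter_dvd_card_eq_div]
    refine Nat.cast_div_le.trans ?_
    have hl : ((Nat.gcd a b : ℕ) : ℝ) * ((Nat.lcm a b : ℕ) : ℝ) = a * b := by
      exact_mod_cast Nat.gcd_mul_lcm a b
    have hg : (0 : ℝ) < (Nat.gcd a b : ℕ) := by
      exact_mod_cast Nat.gcd_pos_of_pos_left b ha0
    have hlc : (0 : ℝ) < (Nat.lcm a b : ℕ) := by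
      exact_mod_cast Nat.lcm_pos ha0 hb0
    rw [← hl]
    rw [div_eq_mul_inv]
    refine le_of_eq ?_
    field_simp
  refine (Finset.sum_le_sum h2).trans ?_
  simp_rw [← Finset.mul_sum]
  exact mul_le_mul_of_nonneg_left (gcd_sum K) (Nat.cast_nonneg K)

theorem tau_sq_sum_log (K : ℕ) : ∑ k ∈ Ioc 0 K, ((k.divisors.card : ℕ) : ℝ) ^ 2 ≤
    K * (1 + Real.log K) ^ 3 := by
  refine (tau_sq_sum K).trans ?_
  refine mul_le_mul_of_nonneg_left ?_ (Nat.cast_nonneg K)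
  have h1 : ∑ g ∈ Ioc 0 K, (1 : ℝ) / g ≤ 1 + Real.log K := by
    have h := harmonic_le_one_add_log K
    rw [harmonic_eq_sum_Icc] at h
    push_cast at h
    simp only [one_div]
    exact h
  exact pow_le_pow_left₀ (Finset.sum_nonneg fun g _ => by positivity) h1 3

end MP848
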