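import Pool.Agent.Lib.MP_848d44_nt.A.Fam

/-!
# MP_848d44_nt: type I and type II sums over a family
-/

namespace MP848

open Finset

theorem sum_dyadic (g : ℕ → ℂ) (U : ℕ) : ∀ J : ℕ,
    ∑ m ∈ Ioc U (U * 2 ^ J), g m =
      ∑ j ∈ range J, ∑ m ∈ Ioc (U * 2 ^ j) (U * 2 ^ j + U * 2 ^ j), g m := by
  intro J
  induction J with
  | zero => simp
  | succ J ih =>
    rw [Finset.sum_range_succ, ← ih]
    have h1 : U * 2 ^ (J + 1) = U * 2 ^ J + U * 2 ^ J := by ring
    have h2 : U ≤ U * 2 ^ J := Nat.le_mul_of_pos_right U (by positivity)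
    rw [h1, Finset.sum_Ioc_consecutive g h2 (by omega)]

/-- number of dyadic levels -/
def lev (N : ℕ) : ℕ := Nat.log 2 N + 2

theorem lt_two_pow_lev (N : ℕ) : N + 1 < 2 ^ lev N := by
  have h := Nat.lt_pow_succ_log_self (b := 2) (by norm_num) N
  have h2 : 2 ^ lev N = 2 * 2 ^ (Nat.log 2 N).succ := by
    rw [lev, Nat.succ_eq_add_one]; ring
  rw [h2]
  have : 0 < 2 ^ (Nat.log 2 N).succ := by positivity
  omega

theorem lev_le (N : ℕ) : (lev N : ℝ) ≤ 2 * (1 + Real.log N) := by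
  have h1 : (Nat.log 2 N : ℝ) ≤ Real.log N / Real.log 2 := by
    have := Real.natLog_le_logb N 2
    rw [Real.logb] at this
    exact_mod_cast this
  have h2 : Real.log N / Real.log 2 ≤ 2 * Real.log N := by
    have h3 := Real.log_two_gt_d9
    have h4 : 0 ≤ Real.log N := Real.log_natCast_nonneg N
    rw [div_le_iff₀ (by linarith)]
    nlinarith
  rw [lev]
  push_cast
  linarith

section

variable {ι : Type*} [Fintype ι] {f : ι → ℕ → ℂ} {B D P : ℝ}

theorem real_typeII_block {D M K N U : ℝ} (hD : 0 ≤ D) (hM : 0 ≤ M) (hK : 0 ≤ K) (hU : 0 < U)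
    (hMK : M * K ≤ N) (hM2 : M ≤ N / U) (hK2 : K ≤ N / U) :
    Real.sqrt ((D + M) * M) * Real.sqrt ((D + K) * K) ≤
      Real.sqrt N * D + 2 * (N * Real.sqrt (D / U)) + N := by
  have hN : 0 ≤ N := (mul_nonneg hM hK).trans hMK
  rw [← Real.sqrt_mul (by positivity)]
  apply Real.sqrt_le_iff.2
  refine ⟨by positivity, ?_⟩
  have h1 : (D + M) * M * ((D + K) * K) = M * K * (D ^ 2 + D * (M + K) + M * K) := by ring
  have h2 : M * K * (D ^ 2 + D * (M + K) + M * K) ≤ N * (D ^ 2 + D * (N / U + N / U) + N) := by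
    gcongr
  have h3 : N * (D ^ 2 + D * (N / U + N / U) + N) =
      (Real.sqrt N * D) ^ 2 + 2 * (N * Real.sqrt (D / U)) ^ 2 + N ^ 2 := by
    rw [mul_pow, mul_pow, Real.sq_sqrt hN, Real.sq_sqrt (by positivity)]
    ring
  rw [h1]
  refine h2.trans ?_
  rw [h3]
  have hs1 : 0 ≤ Real.sqrt N * D := by positivity
  have hs2 : 0 ≤ N * Real.sqrt (D / U) := by positivity
  nlinarith [mul_nonneg hs1 hs2, mul_nonneg hs1 hN, mul_nonneg hs2 hN, sq_nonneg (N * Real.sqrt (D / U))]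

/-- **Type II sums.** -/
theorem Fam.typeII (F : Fam f B D P) (a b : ℕ → ℂ) (N U W y : ℕ) (hU : 1 ≤ U)
    (hWU : W * U ≤ N) (hy : y ≤ N) (α β : ℝ) (hα : 0 ≤ α) (hβ : 0 ≤ β)
    (ha : ∀ m ≤ N, ‖a m‖ ≤ α)
    (hb : ∀ K ≤ N, ∑ k ∈ Ioc 0 K, ‖b k‖ ^ 2 ≤ β ^ 2 * K) :
    ∑ i, ‖∑ m ∈ Ioc U W, a m * f i m * ∑ k ∈ Ioc 0 (y / m), b k * f i k‖ ≤
      lev N * (lev N * (B * (α * β * (Real.sqrt N * D + 2 * (N * Real.sqrt (D / U)) + N)))) := by
  classical
  set E : ℝ := Real.sqrt N * D + 2 * (N * Real.sqrt (D / U)) + N with hE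
  have hD := F.nonnegD
  have hB0 : 0 ≤ B := zero_le_one.trans F.oneB
  have hE0 : 0 ≤ E := by positivity
  set a' : ℕ → ℂ := fun m => if m ≤ W then a m else 0 with ha'
  set J := lev N with hJ
  have hWN : W ≤ N := (Nat.le_mul_of_pos_right W hU).trans hWU
  have hWJ : W ≤ U * 2 ^ J := by
    have h1 : W < 2 ^ J := lt_of_le_of_lt (hWN.trans (Nat.le_succ N)) (lt_two_pow_lev N)
    exact h1.le.trans (Nat.le_mul_of_pos_left _ hU)
  -- the blocks
  set S : ℕ → ι → ℂ := fun j i => ∑ m ∈ Ioc (U * 2 ^ j) (U * 2 ^ j + U * 2 ^ j),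
    ∑ k ∈ (Ioc 0 (0 + N / (U * 2 ^ j))).filter (fun k => m * k ≤ y),
      a' m * b k * f i (m * k) with hS
  have hdec : ∀ i, ∑ m ∈ Ioc U W, a m * f i m * ∑ k ∈ Ioc 0 (y / m), b k * f i k =
      ∑ j ∈ range J, S j i := by
    intro i
    have e1 : ∑ m ∈ Ioc U W, a m * f i m * ∑ k ∈ Ioc 0 (y / m), b k * f i k =
        ∑ m ∈ Ioc U (U * 2 ^ J), a' m * f i m * ∑ k ∈ Ioc 0 (y / m), b k * f i k := by
      have e2 : Ioc U W ⊆ Ioc U (U * 2 ^ J) := Finset.Ioc_subset_Ioc_right hWJ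
      rw [← Finset.sum_subset e2]
      · refine Finset.sum_congr rfl fun m hm => ?_
        simp only [ha', if_pos (Finset.mem_Ioc.1 hm).2]
      · intro m hm hm'
        have : ¬ m ≤ W := fun h => hm' (Finset.mem_Ioc.2 ⟨(Finset.mem_Ioc.1 hm).1, h⟩)
        simp [ha', this]
    rw [e1, sum_dyadic]
    refine Finset.sum_congr rfl fun j _ => ?_
    simp only [hS]
    refine Finset.sum_congr rfl fun m hm => ?_
    have hm1 := (Finset.mem_Ioc.1 hm).1
    have hm0 : 0 < m := lt_of_le_of_lt (Nat.zero_le _) hm1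
    have hUj : 0 < U * 2 ^ j := by positivity
    have hset : (Ioc 0 (0 + N / (U * 2 ^ j))).filter (fun k => m * k ≤ y) = Ioc 0 (y / m) := by
      ext k
      simp only [Finset.mem_filter, Finset.mem_Ioc, zero_add]
      rw [Nat.le_div_iff_mul_le hm0, Nat.le_div_iff_mul_le hUj, mul_comm m k]
      constructor
      · rintro ⟨⟨h1, _⟩, h2⟩
        exact ⟨h1, h2⟩
      · rintro ⟨h1, h2⟩
        exact ⟨⟨h1, (Nat.mul_le_mul_left k hm1.le).trans (h2.trans hy)⟩, h2⟩
    rw [hset, Finset.mul_sum]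
    refine Finset.sum_congr rfl fun k _ => ?_
    rw [F.mul]
    ring
  have hblock : ∀ j ∈ range J, ∑ i, ‖S j i‖ ≤ lev N * (B * (α * β * E)) := by
    intro j _
    set M := U * 2 ^ j with hM
    have hM0 : 0 < M := by positivity
    by_cases hMW : M < W
    swap
    · have : ∀ i, S j i = 0 := by
        intro i
        simp only [hS]
        refine Finset.sum_eq_zero fun m hm => Finset.sum_eq_zero fun k _ => ?_
        have : ¬ m ≤ W := by
          have := (Finset.mem_Ioc.1 hm).1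
          omega
        simp [ha', this]
      simp only [this, norm_zero, Finset.sum_const_zero]
      positivity
    · have h1 := F.bilinear a' b M M 0 (N / M) y (lev N)
        (lt_of_le_of_lt (by have := Nat.div_le_self N M; omega) (lt_two_pow_lev N))
      refine h1.trans ?_
      refine mul_le_mul_of_nonneg_left (mul_le_mul_of_nonneg_left ?_ hB0) (Nat.cast_nonneg _)
      have hMN : (M : ℝ) ≤ N / U := by
        rw [le_div_iff₀ (by exact_mod_cast hU)]
        exact_mod_cast (Nat.mul_le_mul_right U hMW.le).trans hWU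
      have hMr : (0 : ℝ) < M := by exact_mod_cast hM0
      have hUr : (0 : ℝ) < U := by exact_mod_cast hU
      have hKd : ((N / M : ℕ) : ℝ) ≤ N / M := Nat.cast_div_le
      have hKN : ((N / M : ℕ) : ℝ) ≤ N / U := by
        refine hKd.trans ?_
        gcongr
        exact_mod_cast Nat.le_mul_of_pos_right U (by positivity)
      have hMK : (M : ℝ) * ((N / M : ℕ) : ℝ) ≤ N := by
        exact_mod_cast Nat.mul_div_le N M
      have hsa : ∑ m ∈ Ioc M (M + M), ‖a' m‖ ^ 2 ≤ α ^ 2 * M := by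
        calc ∑ m ∈ Ioc M (M + M), ‖a' m‖ ^ 2 ≤ ∑ m ∈ Ioc M (M + M), α ^ 2 := by
              refine Finset.sum_le_sum fun m _ => ?_
              simp only [ha']
              split_ifs with h
              · have := ha m (h.trans hWN)
                have := norm_nonneg (a m)
                gcongr
              · rw [norm_zero, zero_pow two_ne_zero]
                positivity
          _ = α ^ 2 * M := by
              rw [Finset.sum_const, Nat.card_Ioc, nsmul_eq_mul, Nat.add_sub_cancel_left, mul_comm]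
      have hsb : ∑ k ∈ Ioc 0 (0 + N / M), ‖b k‖ ^ 2 ≤ β ^ 2 * ((N / M : ℕ) : ℝ) := by
        rw [zero_add]
        exact hb (N / M) (Nat.div_le_self N M)
      calc Real.sqrt ((D + M) * ∑ m ∈ Ioc M (M + M), ‖a' m‖ ^ 2) *
            Real.sqrt ((D + ((N / M : ℕ) : ℝ)) * ∑ k ∈ Ioc 0 (0 + N / M), ‖b k‖ ^ 2)
          ≤ Real.sqrt ((D + M) * (α ^ 2 * M)) *
            Real.sqrt ((D + ((N / M : ℕ) : ℝ)) * (β ^ 2 * ((N / M : ℕ) : ℝ))) := by
            gcongr
        _ = α * β * (Real.sqrt ((D + M) * M) *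
            Real.sqrt ((D + ((N / M : ℕ) : ℝ)) * ((N / M : ℕ) : ℝ))) := by
            rw [show (D + (M : ℝ)) * (α ^ 2 * M) = α ^ 2 * ((D + M) * M) by ring,
              show (D + ((N / M : ℕ) : ℝ)) * (β ^ 2 * ((N / M : ℕ) : ℝ)) =
                β ^ 2 * ((D + ((N / M : ℕ) : ℝ)) * ((N / M : ℕ) : ℝ)) by ring,
              Real.sqrt_mul (sq_nonneg α), Real.sqrt_mul (sq_nonneg β), Real.sqrt_sq hα,
              Real.sqrt_sq hβ]
            ring
        _ ≤ α * β * E := by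
            refine mul_le_mul_of_nonneg_left ?_ (by positivity)
            exact real_typeII_block hD hMr.le (Nat.cast_nonneg _) hUr hMK hMN hKN
  calc ∑ i, ‖∑ m ∈ Ioc U W, a m * f i m * ∑ k ∈ Ioc 0 (y / m), b k * f i k‖
      = ∑ i, ‖∑ j ∈ range J, S j i‖ := by simp_rw [hdec]
    _ ≤ ∑ i, ∑ j ∈ range J, ‖S j i‖ := Finset.sum_le_sum fun i _ => norm_sum_le _ _
    _ = ∑ j ∈ range J, ∑ i, ‖S j i‖ := Finset.sum_comm
    _ ≤ ∑ j ∈ range J, lev N * (B * (α * β * E)) := Finset.sum_le_sum hblock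
    _ = _ := by rw [Finset.sum_const, Finset.card_range, nsmul_eq_mul]

/-- partial summation with the logarithm -/
theorem Fam.log_sum (F : Fam f B D P) (i : ι) (z : ℕ) :
    ‖∑ k ∈ Ioc 0 z, (Real.log k : ℂ) * f i k‖ ≤ 2 * (P * Real.log z) := by
  have hP := F.oneP
  have key : ∀ z : ℕ, 1 ≤ z → ‖∑ k ∈ Ioc 0 z, (Real.log k : ℂ) * f i k -
      (Real.log z : ℂ) * ∑ k ∈ Ioc 0 z, f i k‖ ≤ P * Real.log z := by
    intro z hz
    induction z, hz using Nat.le_induction with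
    | base => simp
    | succ z hz ih =>
      rw [Finset.sum_Ioc_succ_top (Nat.zero_le z), Finset.sum_Ioc_succ_top (Nat.zero_le z)]
      have e : ∑ k ∈ Ioc 0 z, (Real.log k : ℂ) * f i k +
          (Real.log ((z + 1 : ℕ) : ℝ) : ℂ) * f i (z + 1) -
          (Real.log ((z + 1 : ℕ) : ℝ) : ℂ) * (∑ k ∈ Ioc 0 z, f i k + f i (z + 1)) =
          (∑ k ∈ Ioc 0 z, (Real.log k : ℂ) * f i k - (Real.log z : ℂ) * ∑ k ∈ Ioc 0 z, f i k) -
          ((Real.log ((z + 1 : ℕ) : ℝ) - Real.log z : ℝ) : ℂ) * ∑ k ∈ Ioc 0 z, f i k := by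
        push_cast
        ring
      rw [e]
      refine (norm_sub_le _ _).trans ?_
      have h0 : 0 ≤ Real.log ((z + 1 : ℕ) : ℝ) - Real.log z := by
        rw [sub_nonneg]
        apply Real.log_le_log
        · exact_mod_cast hz
        · push_cast; linarith
      have h1 : ‖((Real.log ((z + 1 : ℕ) : ℝ) - Real.log z : ℝ) : ℂ) * ∑ k ∈ Ioc 0 z, f i k‖ ≤
          (Real.log ((z + 1 : ℕ) : ℝ) - Real.log z) * P := by
        rw [norm_mul, Complex.norm_real, Real.norm_of_nonneg h0]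
        exact mul_le_mul_of_nonneg_left (F.pv i z) h0
      calc _ ≤ P * Real.log z + (Real.log ((z + 1 : ℕ) : ℝ) - Real.log z) * P := add_le_add ih h1
        _ = P * Real.log ((z + 1 : ℕ) : ℝ) := by ring
  rcases Nat.eq_zero_or_pos z with h | h
  · subst h; simp
  · have h1 := key z h
    have h2 : ‖(Real.log z : ℂ) * ∑ k ∈ Ioc 0 z, f i k‖ ≤ Real.log z * P := by
      rw [norm_mul, Complex.norm_real, Real.norm_of_nonneg (Real.log_natCast_nonneg z)]
      exact mul_le_mul_of_nonneg_left (F.pv i z) (Real.log_natCast_nonneg z)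
    calc ‖∑ k ∈ Ioc 0 z, (Real.log k : ℂ) * f i k‖
        = ‖(∑ k ∈ Ioc 0 z, (Real.log k : ℂ) * f i k - (Real.log z : ℂ) * ∑ k ∈ Ioc 0 z, f i k) +
          (Real.log z : ℂ) * ∑ k ∈ Ioc 0 z, f i k‖ := by rw [sub_add_cancel]
      _ ≤ P * Real.log z + Real.log z * P := (norm_add_le _ _).trans (add_le_add h1 h2)
      _ = 2 * (P * Real.log z) := by ring

end

end MP848
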