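import Pool.Agent.Lib.MP_848d44_nt.A.TypeII
import Pool.Agent.Lib.MP_848d44_nt.A.Tau

/-!
# MP_848d44_nt: Vaughan's identity and the mean value theorem over a family
-/

namespace MP848

open Finset ArithmeticFunction

/-- truncation of an arithmetic function -/
noncomputable def tru (U : ℕ) (g : ArithmeticFunction ℝ) : ArithmeticFunction ℝ :=
  ⟨fun n => if n ≤ U then g n else 0, by simp⟩

theorem tru_apply (U : ℕ) (g : ArithmeticFunction ℝ) (n : ℕ) :
    tru U g n = if n ≤ U then g n else 0 := rfl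

/-- the twist of an arithmetic function by a completely multiplicative function -/
noncomputable def tw (φ : ℕ → ℂ) (g : ArithmeticFunction ℝ) : ArithmeticFunction ℂ :=
  ⟨fun n => (g n : ℂ) * φ n, by simp⟩

theorem tw_apply (φ : ℕ → ℂ) (g : ArithmeticFunction ℝ) (n : ℕ) :
    tw φ g n = (g n : ℂ) * φ n := rfl

theorem tw_mul (φ : ℕ → ℂ) (hφ : ∀ m n, φ (m * n) = φ m * φ n) (g h : ArithmeticFunction ℝ) :
    tw φ (g * h) = tw φ g * tw φ h := by
  ext n
  rw [tw_apply, ArithmeticFunction.mul_apply, ArithmeticFunction.mul_apply]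
  push_cast
  rw [Finset.sum_mul]
  refine Finset.sum_congr rfl fun p hp => ?_
  rw [tw_apply, tw_apply, ← (Nat.mem_divisorsAntidiagonal.1 hp).1, hφ]
  ring

theorem conv_sum (φ : ℕ → ℂ) (hφ : ∀ m n, φ (m * n) = φ m * φ n) (g h : ArithmeticFunction ℝ)
    (y : ℕ) : ∑ n ∈ Ioc 0 y, ((g * h) n : ℂ) * φ n =
      ∑ m ∈ Ioc 0 y, (g m : ℂ) * φ m * ∑ k ∈ Ioc 0 (y / m), (h k : ℂ) * φ k := by
  have h1 := sum_Ioc_mul_eq_sum_sum (tw φ g) (tw φ h) y
  rw [← tw_mul φ hφ] at h1
  exact h1

/-- the von Mangoldt function -/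
noncomputable abbrev LamR : ArithmeticFunction ℝ := ArithmeticFunction.vonMangoldt

/-- the constant function -/
noncomputable abbrev ZetR : ArithmeticFunction ℝ :=
  ((ArithmeticFunction.zeta : ArithmeticFunction ℕ) : ArithmeticFunction ℝ)

/-- the Moebius function -/
noncomputable abbrev MoeR : ArithmeticFunction ℝ :=
  ((ArithmeticFunction.moebius : ArithmeticFunction ℤ) : ArithmeticFunction ℝ)

theorem af_sub_apply (f g : ArithmeticFunction ℝ) (n : ℕ) : (f - g) n = f n - g n := by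
  rw [sub_eq_add_neg, ArithmeticFunction.add_apply]
  rfl

/-- **Vaughan's identity** -/
theorem vaughan_identity (F G : ArithmeticFunction ℝ) :
    LamR = F + G * log - (F * G) * ZetR + (LamR - F) * (1 - ZetR * G) := by
  have h : LamR * ZetR = log := vonMangoldt_mul_zeta
  rw [← h]
  ring

theorem vaughan_sum (φ : ℕ → ℂ) (hφ : ∀ m n, φ (m * n) = φ m * φ n)
    (F G : ArithmeticFunction ℝ) (y : ℕ) :
    ∑ n ∈ Ioc 0 y, (LamR n : ℂ) * φ n =
      ∑ n ∈ Ioc 0 y, (F n : ℂ) * φ n
      + ∑ m ∈ Ioc 0 y, (G m : ℂ) * φ m * ∑ k ∈ Ioc 0 (y / m), (log k : ℂ) * φ k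
      - ∑ m ∈ Ioc 0 y, ((F * G) m : ℂ) * φ m * ∑ k ∈ Ioc 0 (y / m), (ZetR k : ℂ) * φ k
      + ∑ m ∈ Ioc 0 y, ((LamR - F) m : ℂ) * φ m *
          ∑ k ∈ Ioc 0 (y / m), ((1 - ZetR * G) k : ℂ) * φ k := by
  rw [← conv_sum φ hφ, ← conv_sum φ hφ, ← conv_sum φ hφ, ← Finset.sum_add_distrib,
    ← Finset.sum_sub_distrib, ← Finset.sum_add_distrib]
  refine Finset.sum_congr rfl fun n _ => ?_
  have h := congrArg (fun g : ArithmeticFunction ℝ => ((g n : ℝ) : ℂ)) (vaughan_identity F G)
  simp only [ArithmeticFunction.add_apply, af_sub_apply] at h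
  rw [h]
  push_cast
  ring

theorem tru_moe_abs (U n : ℕ) : |tru U MoeR n| ≤ 1 := by
  rw [tru_apply]
  split_ifs
  · have h : |ArithmeticFunction.moebius n| ≤ 1 := abs_moebius_le_one
    rw [ArithmeticFunction.intCoe_apply, ← Int.cast_abs]
    exact_mod_cast h
  · simp

/-- the coefficients `β` -/
theorem beta_zero (U k : ℕ) (hk : 0 < k) (hkU : k ≤ U) :
    ((1 : ArithmeticFunction ℝ) - ZetR * tru U MoeR) k = 0 := by
  have h1 : (ZetR * tru U MoeR) k = (ZetR * MoeR) k := by
    rw [ArithmeticFunction.mul_apply, ArithmeticFunction.mul_apply]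
    refine Finset.sum_congr rfl fun p hp => ?_
    have h2 : p.2 ∣ k := ⟨p.1, by rw [mul_comm]; exact (Nat.mem_divisorsAntidiagonal.1 hp).1.symm⟩
    rw [tru_apply, if_pos ((Nat.le_of_dvd hk h2).trans hkU)]
  rw [af_sub_apply, h1]
  have h3 : ZetR * MoeR = 1 := coe_zeta_mul_coe_moebius
  rw [h3, sub_self]

theorem beta_le (U k : ℕ) (hk : 1 < k) :
    |((1 : ArithmeticFunction ℝ) - ZetR * tru U MoeR) k| ≤ (k.divisors.card : ℝ) := by
  rw [af_sub_apply, ArithmeticFunction.one_apply_ne hk.ne', zero_sub, abs_neg,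
    ArithmeticFunction.mul_apply]
  refine (Finset.abs_sum_le_sum_abs _ _).trans ?_
  have h1 : ∀ p ∈ k.divisorsAntidiagonal, |ZetR p.1 * tru U MoeR p.2| ≤ 1 := by
    intro p hp
    rw [abs_mul]
    have h2 : |ZetR p.1| ≤ 1 := by
      rw [ArithmeticFunction.natCoe_apply, ArithmeticFunction.zeta_apply]
      split_ifs <;> simp
    calc |ZetR p.1| * |tru U MoeR p.2| ≤ 1 * 1 :=
          mul_le_mul h2 (tru_moe_abs U p.2) (abs_nonneg _) zero_le_one
      _ = 1 := one_mul 1
  refine (Finset.sum_le_sum h1).trans (le_of_eq ?_)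
  rw [Finset.sum_const, nsmul_eq_mul, mul_one, ← Nat.map_div_right_divisors, Finset.card_map]

theorem tru_lam_abs (U n N : ℕ) (hn : n ≤ N) : |tru U LamR n| ≤ Real.log N := by
  rw [tru_apply]
  split_ifs
  · rcases Nat.eq_zero_or_pos n with h | h
    · subst h
      simp only [ArithmeticFunction.map_zero, abs_zero]
      exact Real.log_natCast_nonneg N
    · rw [abs_of_nonneg vonMangoldt_nonneg]
      refine vonMangoldt_le_log.trans ?_
      exact Real.log_le_log (by exact_mod_cast h) (by exact_mod_cast hn)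
  · simp only [abs_zero]
    exact Real.log_natCast_nonneg N

theorem lam_sub_tru_abs (U n N : ℕ) (hn : n ≤ N) : |(LamR - tru U LamR) n| ≤ Real.log N := by
  rw [af_sub_apply, tru_apply]
  rcases Nat.eq_zero_or_pos n with h | h
  · subst h
    simp only [ArithmeticFunction.map_zero, ite_self, sub_self, abs_zero]
    exact Real.log_natCast_nonneg N
  · split_ifs
    · rw [sub_self, abs_zero]
      exact Real.log_natCast_nonneg N
    · rw [sub_zero, abs_of_nonneg vonMangoldt_nonneg]
      refine vonMangoldt_le_log.trans ?_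
      exact Real.log_le_log (by exact_mod_cast h) (by exact_mod_cast hn)

theorem FG_abs (U n N : ℕ) (hn : n ≤ N) : |(tru U LamR * tru U MoeR) n| ≤ Real.log N := by
  rcases Nat.eq_zero_or_pos n with h | h
  · subst h
    simp only [ArithmeticFunction.map_zero, abs_zero]
    exact Real.log_natCast_nonneg N
  rw [ArithmeticFunction.mul_apply]
  refine (Finset.abs_sum_le_sum_abs _ _).trans ?_
  have h1 : ∀ p ∈ n.divisorsAntidiagonal, |tru U LamR p.1 * tru U MoeR p.2| ≤
      LamR p.1 * ZetR p.2 := by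
    intro p hp
    have hp2 : p.2 ≠ 0 := by
      intro h0
      have := (Nat.mem_divisorsAntidiagonal.1 hp)
      rw [h0, mul_zero] at this
      exact this.2 this.1.symm
    rw [abs_mul, ArithmeticFunction.natCoe_apply, ArithmeticFunction.zeta_apply_ne hp2, Nat.cast_one]
    refine mul_le_mul ?_ (tru_moe_abs U p.2) (abs_nonneg _) vonMangoldt_nonneg
    rw [tru_apply]
    split_ifs
    · rw [abs_of_nonneg vonMangoldt_nonneg]
    · rw [abs_zero]
      exact vonMangoldt_nonneg
  refine (Finset.sum_le_sum h1).trans ?_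
  rw [← ArithmeticFunction.mul_apply]
  have h2 : LamR * ZetR = log := vonMangoldt_mul_zeta
  rw [h2, ArithmeticFunction.log_apply]
  exact Real.log_le_log (by exact_mod_cast h) (by exact_mod_cast hn)

theorem FG_zero (U n : ℕ) (hn : U * U < n) : (tru U LamR * tru U MoeR) n = 0 := by
  rw [ArithmeticFunction.mul_apply]
  refine Finset.sum_eq_zero fun p hp => ?_
  have h := (Nat.mem_divisorsAntidiagonal.1 hp).1
  rw [tru_apply, tru_apply]
  by_cases h1 : p.1 ≤ U
  · by_cases h2 : p.2 ≤ U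
    · exfalso
      have := Nat.mul_le_mul h1 h2
      omega
    · rw [if_neg h2, mul_zero]
  · rw [if_neg h1, zero_mul]

end MP848
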